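import Mathlib

/-!
Configurations of integer vectors: descent from characteristic `p`, and the sphere argument.
-/

namespace Pool.Agent.Lib.MP_96bab1_co

open Finset

/-- Splitting a configuration into classes. -/
lemma class_bound {α β κ : Type*} [DecidableEq α] [DecidableEq β] [DecidableEq κ]
    (M : Finset α) (r : α → β) (f : β → ℕ) (E : κ → α → α → Prop) (T : Finset κ) (t : ℕ)
    (hM : M.Nonempty)
    (hT : ∀ i ∈ T, ∃ x ∈ M, ∃ y ∈ M, x ≠ y ∧ E i x y)
    (hcross : ∀ T' ⊆ T, (∀ i ∈ T', ∃ x ∈ M, ∃ y ∈ M, r x ≠ r y ∧ E i x y) →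
      T'.card + 1 ≤ t * ((M.image r).card - 1))
    (hin : ∀ ρ ∈ M.image r, ∀ T' ⊆ T, (∀ i ∈ T', ∃ x ∈ M.filter (fun z => r z = ρ),
      ∃ y ∈ M.filter (fun z => r z = ρ), x ≠ y ∧ E i x y) →
      T'.card + f ρ ≤ t * ((M.filter (fun z => r z = ρ)).card - 1)) :
    T.card + 1 + ∑ ρ ∈ M.image r, f ρ ≤ t * (M.card - 1) := by
  classical
  let Tc : Finset κ := T.filter (fun i => ∃ x ∈ M, ∃ y ∈ M, r x ≠ r y ∧ E i x y)
  let Tr : β → Finset κ := fun ρ => T.filter (fun i => ∃ x ∈ M.filter (fun z => r z = ρ),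
      ∃ y ∈ M.filter (fun z => r z = ρ), x ≠ y ∧ E i x y)
  have h1 : T ⊆ Tc ∪ (M.image r).biUnion Tr := by
    intro i hi
    obtain ⟨x, hx, y, hy, hxy, hE⟩ := hT i hi
    by_cases hr : r x = r y
    · apply Finset.mem_union_right
      rw [Finset.mem_biUnion]
      refine ⟨r x, Finset.mem_image_of_mem r hx, ?_⟩
      simp only [Tr, Finset.mem_filter]
      exact ⟨hi, x, ⟨hx, rfl⟩, y, ⟨hy, hr.symm⟩, hxy, hE⟩
    · apply Finset.mem_union_left
      simp only [Tc, Finset.mem_filter]
      exact ⟨hi, x, hx, y, hy, hr, hE⟩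
  have h2 : T.card ≤ Tc.card + ∑ ρ ∈ M.image r, (Tr ρ).card := by
    calc T.card ≤ (Tc ∪ (M.image r).biUnion Tr).card := Finset.card_le_card h1
      _ ≤ Tc.card + ((M.image r).biUnion Tr).card := Finset.card_union_le _ _
      _ ≤ _ := by
        apply Nat.add_le_add_left
        exact Finset.card_biUnion_le
  have h3 := hcross Tc (Finset.filter_subset _ _) (fun i hi => (Finset.mem_filter.mp hi).2)
  have h4 : ∑ ρ ∈ M.image r, ((Tr ρ).card + f ρ) ≤
      ∑ ρ ∈ M.image r, t * ((M.filter (fun z => r z = ρ)).card - 1) := by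
    apply Finset.sum_le_sum
    intro ρ hρ
    exact hin ρ hρ (Tr ρ) (Finset.filter_subset _ _) (fun i hi => (Finset.mem_filter.mp hi).2)
  rw [Finset.sum_add_distrib, ← Finset.mul_sum] at h4
  have h5 : ∑ ρ ∈ M.image r, ((M.filter (fun z => r z = ρ)).card - 1) + (M.image r).card =
      M.card := by
    have h6 := Finset.card_eq_sum_card_image r M
    rw [h6]
    rw [Finset.card_eq_sum_ones, ← Finset.sum_add_distrib]
    apply Finset.sum_congr rfl
    intro ρ hρ
    have : 1 ≤ (M.filter (fun z => r z = ρ)).card := by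
      rw [Nat.one_le_iff_ne_zero, ← Nat.pos_iff_ne_zero, Finset.card_pos]
      obtain ⟨z, hz, hzρ⟩ := Finset.mem_image.mp hρ
      exact ⟨z, Finset.mem_filter.mpr ⟨hz, hzρ⟩⟩
    omega
  have h7 : 1 ≤ (M.image r).card := Finset.card_pos.mpr (hM.image r)
  have h8 : t * ((M.image r).card - 1) +
      t * ∑ ρ ∈ M.image r, ((M.filter (fun z => r z = ρ)).card - 1) = t * (M.card - 1) := by
    rw [← Nat.mul_add]
    congr 1
    omega
  omega

section Descent

variable {p : ℕ} [Fact p.Prime] {t n K : ℕ}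

/-- Descent from characteristic `p` to the integers. -/
theorem descent (v : Fin n → Fin t → ZMod p)
    (hv : ∀ M : Finset (Fin t → ZMod p), 2 ≤ M.card → M.card ≤ K → ∀ T : Finset (Fin n),
      (∀ i ∈ T, ∃ x ∈ M, ∃ y ∈ M, x ≠ y ∧ ∑ s, (x s - y s) * v i s = 0) →
      T.card + 1 ≤ t * (M.card - 1))
    (a : Fin n → Fin t → ℤ) (ha : ∀ i s, ((a i s : ℤ) : ZMod p) = v i s)
    {κ : Type*} [Fintype κ] [DecidableEq κ] :
    ∀ (c : ℕ) (M : Finset (κ → Fin t → ℤ)), M.card = c → 2 ≤ M.card → M.card ≤ K →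
      ∀ T : Finset (Fin n),
      (∀ i ∈ T, ∃ x ∈ M, ∃ y ∈ M, x ≠ y ∧ ∀ δ, ∑ s, (x δ s - y δ s) * a i s = 0) →
      T.card + 1 ≤ t * (M.card - 1) := by
  classical
  have hp : p.Prime := Fact.out
  intro c
  induction c using Nat.strong_induction_on with
  | _ c ih =>
  intro M hMc hM2 hMK T hT
  obtain ⟨x0, hx0⟩ : M.Nonempty := Finset.card_pos.mp (by omega)
  -- some difference is nonzero
  obtain ⟨x1, hx1, hx10⟩ := Finset.exists_mem_ne (by omega : 1 < M.card) x0
  obtain ⟨δ1, hδ1⟩ := Function.ne_iff.mp hx10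
  obtain ⟨s1, hs1⟩ := Function.ne_iff.mp hδ1
  -- the exponent
  have hex : ∃ e : ℕ, ¬ ∀ x ∈ M, ∀ δ s, ((p : ℤ) ^ e) ∣ x δ s - x0 δ s := by
    refine ⟨(x1 δ1 s1 - x0 δ1 s1).natAbs, ?_⟩
    intro h
    have h1 := h x1 hx1 δ1 s1
    have h2 : x1 δ1 s1 - x0 δ1 s1 ≠ 0 := sub_ne_zero.mpr hs1
    have h3 := Int.natAbs_dvd_natAbs.mpr h1
    rw [Int.natAbs_pow, Int.natAbs_natCast] at h3
    have h4 := Nat.le_of_dvd (Int.natAbs_pos.mpr h2) h3
    have h5 := Nat.lt_pow_self hp.one_lt (n := (x1 δ1 s1 - x0 δ1 s1).natAbs)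
    omega
  obtain ⟨e, he⟩ : ∃ e, Nat.find hex = e + 1 := by
    refine ⟨Nat.find hex - 1, ?_⟩
    have : Nat.find hex ≠ 0 := by
      intro h0
      have := Nat.find_spec hex
      rw [h0] at this
      apply this
      intro x _ δ s
      simp
    omega
  have hPe : ∀ x ∈ M, ∀ δ s, ((p : ℤ) ^ e) ∣ x δ s - x0 δ s := by
    have := Nat.find_min hex (m := e) (by omega)
    push Not at this
    exact this
  have hnPe := Nat.find_spec hex
  rw [he] at hnPe
  push Not at hnPe
  obtain ⟨x2, hx2, δ0, s0, h20⟩ := hnPe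
  have hpe : ((p : ℤ) ^ e) ≠ 0 := pow_ne_zero _ (by exact_mod_cast hp.ne_zero)
  let dd : (κ → Fin t → ℤ) → Fin t → ℤ := fun x s => (x δ0 s - x0 δ0 s) / (p : ℤ) ^ e
  have hdd : ∀ x ∈ M, ∀ s, (p : ℤ) ^ e * dd x s = x δ0 s - x0 δ0 s := by
    intro x hx s
    exact Int.mul_ediv_cancel' (hPe x hx δ0 s)
  let r : (κ → Fin t → ℤ) → Fin t → ZMod p := fun x s => ((dd x s : ℤ) : ZMod p)
  have hr0 : r x0 = 0 := by
    funext s
    simp [r, dd]
  have hr2 : r x2 ≠ 0 := by
    intro h
    have h1 := congrFun h s0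
    simp only [r, Pi.zero_apply] at h1
    rw [ZMod.intCast_zmod_eq_zero_iff_dvd] at h1
    apply h20
    rw [← hdd x2 hx2 s0, pow_succ]
    exact mul_dvd_mul_left _ h1
  have hc2 : 2 ≤ (M.image r).card := by
    have : 1 < (M.image r).card := by
      rw [Finset.one_lt_card]
      exact ⟨r x0, Finset.mem_image_of_mem r hx0, r x2, Finset.mem_image_of_mem r hx2,
        by rw [hr0]; exact fun h => hr2 h.symm⟩
    omega
  have hcM : (M.image r).card ≤ M.card := Finset.card_image_le
  have key := class_bound M r (fun _ => 0)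
    (fun i x y => ∀ δ, ∑ s, (x δ s - y δ s) * a i s = 0) T t ⟨x0, hx0⟩ hT ?_ ?_
  · simpa using key
  · intro T' _ hT'
    refine hv (M.image r) hc2 (by omega) T' ?_
    intro i hi
    obtain ⟨x, hx, y, hy, hxy, hE⟩ := hT' i hi
    refine ⟨r x, Finset.mem_image_of_mem r hx, r y, Finset.mem_image_of_mem r hy, hxy, ?_⟩
    have h1 : ∑ s, (dd x s - dd y s) * a i s = 0 := by
      have h2 := hE δ0
      have h3 : (p : ℤ) ^ e * ∑ s, (dd x s - dd y s) * a i s = 0 := by
        rw [← h2, Finset.mul_sum]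
        apply Finset.sum_congr rfl
        intro s _
        rw [← mul_assoc, mul_sub, hdd x hx, hdd y hy]
        ring
      exact (mul_eq_zero.mp h3).resolve_left hpe
    have h2 := congrArg (fun z : ℤ => (z : ZMod p)) h1
    simp only [Int.cast_sum, Int.cast_mul, Int.cast_sub, Int.cast_zero, ha] at h2
    exact h2
  · intro ρ hρ T' _ hT'
    rcases Nat.lt_or_ge (M.filter (fun z => r z = ρ)).card 2 with h | h
    · have : T' = ∅ := by
        rw [Finset.eq_empty_iff_forall_notMem]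
        intro i hi
        obtain ⟨x, hx, y, hy, hxy, _⟩ := hT' i hi
        exact hxy (Finset.card_le_one.mp (by omega) x hx y hy)
      rw [this]; simp
    · have hlt : (M.filter (fun z => r z = ρ)).card < M.card := by
        apply Finset.card_lt_card
        rw [Finset.filter_ssubset]
        by_cases hρ0 : ρ = 0
        · exact ⟨x2, hx2, by rw [hρ0]; exact hr2⟩
        · exact ⟨x0, hx0, by rw [hr0]; exact fun h => hρ0 h.symm⟩
      have h3 := ih _ (by omega) (M.filter (fun z => r z = ρ)) rfl h (by omega) T' hT'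
      simp only [add_zero]
      omega

/-- The sphere argument: configurations of at least three words. -/
theorem sphere_bound (v : Fin (n + 1) → Fin t → ZMod p)
    (hv : ∀ M : Finset (Fin t → ZMod p), 2 ≤ M.card → M.card ≤ K → ∀ T : Finset (Fin (n + 1)),
      (∀ i ∈ T, ∃ x ∈ M, ∃ y ∈ M, x ≠ y ∧ ∑ s, (x s - y s) * v i s = 0) →
      T.card + 1 ≤ t * (M.card - 1))
    (a : Fin (n + 1) → Fin t → ℤ) (ha : ∀ i s, ((a i s : ℤ) : ZMod p) = v i s)
    {κ : Type*} [Fintype κ] [DecidableEq κ] (b : Fin t → ℤ) (R : ℤ)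
    (M : Finset (κ → Fin t → ℤ)) (hM3 : 3 ≤ M.card) (hMK : M.card ≤ K)
    (hinj : ∀ x ∈ M, ∀ y ∈ M, ∀ δ, ∑ s, x δ s * b s = ∑ s, y δ s * b s → x δ = y δ)
    (hR : ∀ x ∈ M, ∑ δ, (∑ s, x δ s * b s) ^ 2 = R)
    (T : Finset (Fin (n + 1))) (hlast : Fin.last n ∉ T)
    (hT : ∀ i ∈ T, ∃ x ∈ M, ∃ y ∈ M, x ≠ y ∧ ∀ δ, ∑ s, (x δ s - y δ s) * a i s = 0) :
    T.card + 2 ≤ t * (M.card - 1) := by
  classical
  by_contra hcon
  push Not at hcon
  have hdes := descent (κ := κ) v hv a ha
  have hdes1 := descent (κ := Unit) v hv a ha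
  have hTle := hdes _ M rfl (by omega) hMK T hT
  have hMne : M.Nonempty := Finset.card_pos.mp (by omega)
  -- images in `Unit → Fin t → ℤ`
  -- step (i)
  have step1 : ∀ δ : κ, (∃ x ∈ M, ∃ y ∈ M, x δ ≠ y δ) → ∀ x ∈ M, ∀ y ∈ M, x δ = y δ → x = y := by
    intro δ hne
    let r : (κ → Fin t → ℤ) → (Unit → Fin t → ℤ) := fun x _ => x δ
    have hc2 : 2 ≤ (M.image r).card := by
      obtain ⟨x, hx, y, hy, hxy⟩ := hne
      have : 1 < (M.image r).card := by
        rw [Finset.one_lt_card]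
        exact ⟨r x, Finset.mem_image_of_mem r hx, r y, Finset.mem_image_of_mem r hy,
          fun h => hxy (congrFun h ())⟩
      omega
    have hcM : (M.image r).card ≤ M.card := Finset.card_image_le
    have key := class_bound M r
      (fun ρ => if 2 ≤ (M.filter (fun z => r z = ρ)).card then 1 else 0)
      (fun i x y => ∀ δ, ∑ s, (x δ s - y δ s) * a i s = 0) T t hMne hT ?_ ?_
    · have h0 : ∑ ρ ∈ M.image r, (if 2 ≤ (M.filter (fun z => r z = ρ)).card then 1 else 0) = 0 := by
        omega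
      rw [Finset.sum_eq_zero_iff] at h0
      intro x hx y hy hxy
      have h1 := h0 (r x) (Finset.mem_image_of_mem r hx)
      have h2 : ¬ 2 ≤ (M.filter (fun z => r z = r x)).card := by
        intro h
        simp [h] at h1
      apply Finset.card_le_one.mp (by omega : (M.filter (fun z => r z = r x)).card ≤ 1) x
        (Finset.mem_filter.mpr ⟨hx, rfl⟩) y
        (Finset.mem_filter.mpr ⟨hy, by funext _; exact hxy.symm⟩)
    · intro T' _ hT'
      refine hdes1 _ (M.image r) rfl hc2 (by omega) T' ?_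
      intro i hi
      obtain ⟨x, hx, y, hy, hxy, hE⟩ := hT' i hi
      exact ⟨r x, Finset.mem_image_of_mem r hx, r y, Finset.mem_image_of_mem r hy, hxy,
        fun _ => hE δ⟩
    · intro ρ hρ T' _ hT'
      by_cases h : 2 ≤ (M.filter (fun z => r z = ρ)).card
      · simp only [h, if_true]
        exact hdes _ (M.filter (fun z => r z = ρ)) rfl h
          ((Finset.card_filter_le _ _).trans hMK) T' hT'
      · simp only [h, if_false, add_zero]
        have : T' = ∅ := by
          rw [Finset.eq_empty_iff_forall_notMem]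
          intro i hi
          obtain ⟨x, hx, y, hy, hxy, _⟩ := hT' i hi
          exact hxy (Finset.card_le_one.mp (by omega) x hx y hy)
        rw [this]; simp
  -- choose two words and a digit
  obtain ⟨x1, x2, x3, hx1, hx2, hx3, h12, h13, h23⟩ := Finset.two_lt_card_iff.mp (by omega : 2 < M.card)
  obtain ⟨δ0, hδ0⟩ := Function.ne_iff.mp h12
  have hinj0 := step1 δ0 ⟨x1, hx1, x2, hx2, hδ0⟩
  let β : ℤ := ∑ s, (x1 δ0 s - x2 δ0 s) * a (Fin.last n) s
  have hTl : (insert (Fin.last n) T).card = T.card + 1 := Finset.card_insert_of_notMem hlast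
  have hβ : β ≠ 0 := by
    intro hβ0
    let r : (κ → Fin t → ℤ) → (Unit → Fin t → ℤ) := fun x _ => x δ0
    have hrinj : Set.InjOn r (M : Set (κ → Fin t → ℤ)) := by
      intro x hx y hy hxy
      exact hinj0 x hx y hy (congrFun hxy ())
    have hcard : (M.image r).card = M.card := Finset.card_image_of_injOn hrinj
    have h1 := hdes1 _ (M.image r) rfl (by omega) (by omega) (insert (Fin.last n) T) (by
      intro i hi
      rw [Finset.mem_insert] at hi
      rcases hi with rfl | hi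
      · refine ⟨r x1, Finset.mem_image_of_mem r hx1, r x2, Finset.mem_image_of_mem r hx2,
          fun h => hδ0 (congrFun h ()), fun _ => hβ0⟩
      · obtain ⟨x, hx, y, hy, hxy, hE⟩ := hT i hi
        exact ⟨r x, Finset.mem_image_of_mem r hx, r y, Finset.mem_image_of_mem r hy,
          fun h => hxy (hrinj hx hy h), fun _ => hE δ0⟩)
    rw [hcard] at h1
    omega
  let α : κ → ℤ := fun δ => ∑ s, (x1 δ s - x2 δ s) * a (Fin.last n) s
  -- step (ii)
  have step2 : ∀ δ : κ, ∀ x ∈ M, ∀ y ∈ M, ∀ s,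
      β * (x δ s - y δ s) = α δ * (x δ0 s - y δ0 s) := by
    intro δ
    by_contra hne
    push Not at hne
    obtain ⟨x, hx, y, hy, s, hs⟩ := hne
    let r : (κ → Fin t → ℤ) → (Unit → Fin t → ℤ) := fun z _ s => β * z δ s - α δ * z δ0 s
    have hc2 : 2 ≤ (M.image r).card := by
      have : 1 < (M.image r).card := by
        rw [Finset.one_lt_card]
        refine ⟨r x, Finset.mem_image_of_mem r hx, r y, Finset.mem_image_of_mem r hy, ?_⟩
        intro h
        have h1 := congrFun (congrFun h ()) s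
        simp only [r] at h1
        apply hs
        linear_combination h1
      omega
    have hcM : (M.image r).card ≤ M.card := Finset.card_image_le
    have key := class_bound M r (fun _ => 0)
      (fun i x y => if i = Fin.last n then (x = x1 ∧ y = x2) else
        ∀ δ, ∑ s, (x δ s - y δ s) * a i s = 0) (insert (Fin.last n) T) t hMne ?_ ?_ ?_
    · rw [hTl] at key
      simp only [Finset.sum_const_zero, add_zero] at key
      omega
    · intro i hi
      rw [Finset.mem_insert] at hi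
      rcases hi with rfl | hi
      · exact ⟨x1, hx1, x2, hx2, h12, by simp⟩
      · have hil : i ≠ Fin.last n := fun h => hlast (h ▸ hi)
        obtain ⟨x, hx, y, hy, hxy, hE⟩ := hT i hi
        exact ⟨x, hx, y, hy, hxy, by simp only [hil, if_false]; exact hE⟩
    · intro T' _ hT'
      refine hdes1 _ (M.image r) rfl hc2 (by omega) T' ?_
      intro i hi
      obtain ⟨x, hx, y, hy, hxy, hE⟩ := hT' i hi
      refine ⟨r x, Finset.mem_image_of_mem r hx, r y, Finset.mem_image_of_mem r hy, hxy, ?_⟩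
      intro _
      have hsum : ∀ z z' : κ → Fin t → ℤ, ∑ s, (r z () s - r z' () s) * a i s =
          β * ∑ s, (z δ s - z' δ s) * a i s - α δ * ∑ s, (z δ0 s - z' δ0 s) * a i s := by
        intro z z'
        rw [Finset.mul_sum, Finset.mul_sum, ← Finset.sum_sub_distrib]
        apply Finset.sum_congr rfl
        intro s _
        simp only [r]
        ring
      by_cases hil : i = Fin.last n
      · subst hil
        simp only [if_true] at hE
        obtain ⟨rfl, rfl⟩ := hE
        rw [hsum]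
        simp only [α, β]
        ring
      · simp only [hil, if_false] at hE
        rw [hsum, hE δ, hE δ0]
        ring
    · intro ρ hρ T' hT'sub hT'
      simp only [add_zero]
      rcases Nat.lt_or_ge (M.filter (fun z => r z = ρ)).card 2 with h | h
      · have : T' = ∅ := by
          rw [Finset.eq_empty_iff_forall_notMem]
          intro i hi
          obtain ⟨x, hx, y, hy, hxy, _⟩ := hT' i hi
          exact hxy (Finset.card_le_one.mp (by omega) x hx y hy)
        rw [this]; simp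
      · have h1 := hdes _ (M.filter (fun z => r z = ρ)) rfl h
          ((Finset.card_filter_le _ _).trans hMK) (T'.erase (Fin.last n)) (by
            intro i hi
            rw [Finset.mem_erase] at hi
            obtain ⟨x, hx, y, hy, hxy, hE⟩ := hT' i hi.2
            simp only [hi.1, if_false] at hE
            exact ⟨x, hx, y, hy, hxy, hE⟩)
        have h2 : T'.card - 1 ≤ (T'.erase (Fin.last n)).card := Finset.pred_card_le_card_erase
        omega
  -- step (iii)
  let φ : (Fin t → ℤ) → ℤ := fun u => ∑ s, u s * b s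
  have hφ : ∀ δ : κ, ∀ x ∈ M, ∀ y ∈ M, β * (φ (x δ) - φ (y δ)) = α δ * (φ (x δ0) - φ (y δ0)) := by
    intro δ x hx y hy
    simp only [φ, ← Finset.sum_sub_distrib, Finset.mul_sum]
    apply Finset.sum_congr rfl
    intro s _
    have := step2 δ x hx y hy s
    linear_combination (b s) * this
  have hφinj : ∀ x ∈ M, ∀ y ∈ M, x ≠ y → φ (x δ0) ≠ φ (y δ0) := by
    intro x hx y hy hxy h
    exact hxy (hinj0 x hx y hy (hinj x hx y hy δ0 h))
  let Q : ℤ := ∑ δ, α δ * φ (x1 δ)
  let P : ℤ := ∑ δ, α δ ^ 2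
  have hline : ∀ y ∈ M, x1 ≠ y → 2 * β * Q + (φ (y δ0) - φ (x1 δ0)) * P = 0 := by
    intro y hy hxy
    have hA : φ (y δ0) - φ (x1 δ0) ≠ 0 := sub_ne_zero.mpr (hφinj x1 hx1 y hy hxy).symm
    have h1 : β ^ 2 * (∑ δ, (φ (y δ)) ^ 2) = β ^ 2 * ∑ δ, (φ (x1 δ)) ^ 2 := by
      have h2 := hR y hy
      have h3 := hR x1 hx1
      simp only [φ]
      rw [h2, h3]
    have h4 : β ^ 2 * (∑ δ, (φ (y δ)) ^ 2) - β ^ 2 * ∑ δ, (φ (x1 δ)) ^ 2 =
        (φ (y δ0) - φ (x1 δ0)) * (2 * β * Q + (φ (y δ0) - φ (x1 δ0)) * P) := by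
      simp only [Q, P, Finset.mul_sum, ← Finset.sum_sub_distrib, ← Finset.sum_add_distrib]
      apply Finset.sum_congr rfl
      intro δ _
      have h5 := hφ δ y hy x1 hx1
      have h6 : β * φ (y δ) = β * φ (x1 δ) + α δ * (φ (y δ0) - φ (x1 δ0)) := by
        linear_combination h5
      have h7 : β ^ 2 * (φ (y δ)) ^ 2 = (β * φ (y δ)) ^ 2 := by ring
      rw [h7, h6]
      ring
    have h5 : (φ (y δ0) - φ (x1 δ0)) * (2 * β * Q + (φ (y δ0) - φ (x1 δ0)) * P) = 0 := by
      rw [← h4, h1, sub_self]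
    exact (mul_eq_zero.mp h5).resolve_left hA
  have hP : P ≠ 0 := by
    have h1 : 0 < P := by
      have h2 : 0 < α δ0 ^ 2 := by
        have : α δ0 = β := rfl
        rw [this]
        positivity
      have h3 : α δ0 ^ 2 ≤ P :=
        Finset.single_le_sum (f := fun δ => α δ ^ 2) (fun δ _ => sq_nonneg _) (Finset.mem_univ δ0)
      omega
    omega
  have e2 := hline x2 hx2 h12
  have e3 := hline x3 hx3 h13
  have e4 : (φ (x2 δ0) - φ (x3 δ0)) * P = 0 := by linear_combination e2 - e3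
  rcases mul_eq_zero.mp e4 with h | h
  · exact hφinj x2 hx2 x3 hx3 h23 (sub_eq_zero.mp h)
  · exact hP h

end Descent

end Pool.Agent.Lib.MP_96bab1_co
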