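import Pool.Agent.Lib.MP_96bab1_co.Defs

/-!
A sufficient condition for a code to be a sequential `k`-IPP code.
-/

namespace Pool.Agent.Lib.MP_96bab1_co

open Finset

section Count

variable {ι W : Type*} [DecidableEq ι] [DecidableEq W]

lemma arithA (τ m a : ℕ) (hτ : 1 ≤ τ) (hm : 2 ≤ m) :
    2 * ((τ + 1) * (2 * m + a - 1)) ≤ τ * (m * (m + 2 * a + 1)) + 2 * m + 2 := by
  obtain ⟨c, rfl⟩ : ∃ c, m = c + 2 := ⟨m - 2, by omega⟩
  obtain ⟨s, rfl⟩ : ∃ s, τ = s + 1 := ⟨τ - 1, by omega⟩
  have e1 : 2 * (c + 2) + a - 1 = 2 * c + a + 3 := by omega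
  rw [e1]
  rcases Nat.eq_zero_or_pos c with hc | hc
  · subst hc
    nlinarith [Nat.zero_le (s * a), Nat.zero_le s, Nat.zero_le a]
  · nlinarith [Nat.zero_le (s * a), Nat.zero_le s, Nat.zero_le a, Nat.zero_le (s * c),
      Nat.zero_le (s * (c * a)), Nat.zero_le (s * (c * c)), Nat.zero_le (c * a),
      Nat.mul_le_mul hc hc]

lemma arithB (τ m b : ℕ) (hτ : 1 ≤ τ) (hm : 2 ≤ m) :
    2 * ((τ + 1) * (2 * m + b - 1)) ≤ τ * (m * (m + 2 * b + 1)) + 2 * m + 4 := by
  have := arithA τ m b hτ hm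
  omega

/-- The counting lemma. -/
lemma lemB (C : Finset W) (S : ι → W → Prop) (k τ : ℕ)
    (H1 : ∀ x ∈ C, ∀ y ∈ C, x ≠ y → ∀ T : Finset ι, (∀ i ∈ T, S i x ∧ S i y) → T.card ≤ τ)
    (H2 : ∀ M ⊆ C, 3 ≤ M.card → M.card ≤ 2 * k → ∀ T : Finset ι,
      (∀ i ∈ T, ∃ x ∈ M, ∃ y ∈ M, x ≠ y ∧ S i x ∧ S i y) → T.card + 2 ≤ (τ + 1) * (M.card - 1)) :
    ∀ (n a : ℕ) (G : Finset W) (Y : Finset (Finset W)) (T : Finset ι),
      G.card = n → 1 ≤ n → n + a ≤ k → G ⊆ C → (∀ Z ∈ Y, Z ⊆ C ∧ Z.card ≤ n + a) →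
      (∀ x ∈ G, ∃ Z ∈ Y, x ∉ Z) →
      (∀ i ∈ T, (∃ x ∈ G, S i x) ∧ ∀ Z ∈ Y, ∃ y ∈ Z, S i y) →
      2 * T.card + τ * (a * (a + 1)) + 2 ≤ τ * ((n + a) * (n + a + 1)) + 2 * n := by
  classical
  intro n
  induction n using Nat.strong_induction_on with
  | _ n ih =>
  intro a G Y T hG hn hk hGC hY hmiss hT
  rcases Nat.eq_zero_or_pos τ with hτ | hτ
  · -- no coordinates at all
    subst hτ
    have hT0 : T = ∅ := by
      rw [Finset.eq_empty_iff_forall_notMem]
      intro i hi
      obtain ⟨⟨x, hx, hxi⟩, h2⟩ := hT i hi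
      obtain ⟨Z, hZ, hxZ⟩ := hmiss x hx
      obtain ⟨y, hy, hyi⟩ := h2 Z hZ
      have hne : x ≠ y := fun h => hxZ (h ▸ hy)
      have := H1 x (hGC hx) y ((hY Z hZ).1 hy) hne {i} (by
        intro j hj
        rw [Finset.mem_singleton] at hj
        subst hj
        exact ⟨hxi, hyi⟩)
      simp at this
    subst hT0
    simp
    omega
  · -- a minimal subfamily
    obtain ⟨Y', hY'mem, hY'min⟩ := Finset.exists_min_image
      (Y.powerset.filter (fun Y' => ∀ x ∈ G, ∃ Z ∈ Y', x ∉ Z)) (fun Y' => Y'.card)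
      ⟨Y, by simp only [Finset.mem_filter, Finset.mem_powerset, Finset.Subset.refl, true_and]; exact hmiss⟩
    simp only [Finset.mem_filter, Finset.mem_powerset] at hY'mem hY'min
    obtain ⟨hY'sub, hY'miss⟩ := hY'mem
    obtain ⟨x₀, hx₀⟩ : G.Nonempty := by
      rw [← Finset.card_pos]; omega
    obtain ⟨Z₁, hZ₁, _⟩ := hY'miss x₀ hx₀
    -- elements of `G` lying in all other members
    let A₁ : Finset W := G.filter (fun x => ∀ Z ∈ Y'.erase Z₁, x ∈ Z)
    have hA₁ne : A₁.Nonempty := by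
      by_contra hcon
      rw [Finset.not_nonempty_iff_eq_empty] at hcon
      have h1 : ∀ x ∈ G, ∃ Z ∈ Y'.erase Z₁, x ∉ Z := by
        intro x hx
        by_contra hc
        push Not at hc
        have : x ∈ A₁ := by
          simp only [A₁, Finset.mem_filter]
          exact ⟨hx, hc⟩
        rw [hcon] at this
        exact absurd this (Finset.notMem_empty x)
      have h2 := hY'min (Y'.erase Z₁) ⟨(Finset.erase_subset _ _).trans hY'sub, h1⟩
      have h3 := Finset.card_erase_lt_of_mem hZ₁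
      omega
    have hA₁disj : ∀ x ∈ A₁, x ∉ Z₁ := by
      intro x hx
      simp only [A₁, Finset.mem_filter] at hx
      obtain ⟨Z, hZ, hxZ⟩ := hY'miss x hx.1
      by_cases h : Z = Z₁
      · exact h ▸ hxZ
      · exact absurd (hx.2 Z (Finset.mem_erase.mpr ⟨h, hZ⟩)) hxZ
    have hA₁G : A₁ ⊆ G := Finset.filter_subset _ _
    have hZ₁C : Z₁ ⊆ C ∧ Z₁.card ≤ n + a := hY Z₁ (hY'sub hZ₁)
    set m := A₁.card with hm
    have hm1 : 1 ≤ m := Finset.card_pos.mpr hA₁ne
    have hmn : m ≤ n := by rw [← hG]; exact Finset.card_le_card hA₁G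
    let T₁ : Finset ι := T.filter (fun i => ∃ x ∈ A₁, S i x)
    let T₂ : Finset ι := T.filter (fun i => ¬ ∃ x ∈ A₁, S i x)
    have hTcard : T₁.card + T₂.card = T.card := Finset.card_filter_add_card_filter_not _
    have hT₁ : ∀ i ∈ T₁, (∃ x ∈ A₁, S i x) ∧ ∃ y ∈ Z₁, S i y := by
      intro i hi
      simp only [T₁, Finset.mem_filter] at hi
      exact ⟨hi.2, (hT i hi.1).2 Z₁ (hY'sub hZ₁)⟩
    -- bound for `T₂`
    have hT₂0 : m = n → T₂ = ∅ := by
      intro hmn'
      have hAG : A₁ = G := Finset.eq_of_subset_of_card_le hA₁G (by omega)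
      rw [Finset.eq_empty_iff_forall_notMem]
      intro i hi
      simp only [T₂, Finset.mem_filter] at hi
      apply hi.2
      rw [hAG]
      exact (hT i hi.1).1
    have hT₂ : m < n → 2 * T₂.card + τ * (a * (a + 1)) + 2 ≤
        τ * ((n - m + a) * (n - m + a + 1)) + 2 * (n - m) := by
      intro hmn'
      refine ih (n - m) (by omega) a (G \ A₁) ((Y'.erase Z₁).image (fun Z => Z \ A₁)) T₂ ?_
        (by omega) (by omega) (Finset.sdiff_subset.trans hGC) ?_ ?_ ?_
      · rw [Finset.card_sdiff_of_subset hA₁G]; omega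
      · intro Z hZ
        rw [Finset.mem_image] at hZ
        obtain ⟨Z', hZ', rfl⟩ := hZ
        have h1 := hY Z' (hY'sub (Finset.mem_of_mem_erase hZ'))
        refine ⟨Finset.sdiff_subset.trans h1.1, ?_⟩
        have h2 : A₁ ⊆ Z' := by
          intro x hx
          simp only [A₁, Finset.mem_filter] at hx
          exact hx.2 Z' hZ'
        rw [Finset.card_sdiff_of_subset h2]
        omega
      · intro x hx
        rw [Finset.mem_sdiff] at hx
        have h1 : ¬ ∀ Z ∈ Y'.erase Z₁, x ∈ Z := by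
          intro hc
          apply hx.2
          simp only [A₁, Finset.mem_filter]
          exact ⟨hx.1, hc⟩
        push Not at h1
        obtain ⟨Z, hZ, hxZ⟩ := h1
        refine ⟨Z \ A₁, Finset.mem_image_of_mem _ hZ, fun h => hxZ (Finset.mem_sdiff.mp h).1⟩
      · intro i hi
        simp only [T₂, Finset.mem_filter] at hi
        obtain ⟨h1, h2⟩ := hT i hi.1
        constructor
        · obtain ⟨x, hx, hxi⟩ := h1
          refine ⟨x, ?_, hxi⟩
          rw [Finset.mem_sdiff]
          exact ⟨hx, fun h => hi.2 ⟨x, h, hxi⟩⟩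
        · intro Z hZ
          rw [Finset.mem_image] at hZ
          obtain ⟨Z', hZ', rfl⟩ := hZ
          obtain ⟨y, hy, hyi⟩ := h2 Z' (hY'sub (Finset.mem_of_mem_erase hZ'))
          refine ⟨y, ?_, hyi⟩
          rw [Finset.mem_sdiff]
          exact ⟨hy, fun h => hi.2 ⟨y, h, hyi⟩⟩
    rcases Nat.lt_or_ge m 2 with hm2 | hm2
    · -- m = 1
      have hm' : m = 1 := by omega
      obtain ⟨x, hx⟩ := Finset.card_eq_one.mp (hm.symm.trans hm')
      have hxA : x ∈ A₁ := by rw [hx]; exact Finset.mem_singleton_self x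
      have hb : T₁.card ≤ (n + a) * τ := by
        have h1 : T₁ ⊆ Z₁.biUnion (fun y => T₁.filter (fun i => S i x ∧ S i y)) := by
          intro i hi
          obtain ⟨⟨x', hx', hxi⟩, y, hy, hyi⟩ := hT₁ i hi
          rw [hx, Finset.mem_singleton] at hx'
          subst hx'
          simp only [Finset.mem_biUnion, Finset.mem_filter]
          exact ⟨y, hy, hi, hxi, hyi⟩
        have h2 : (Z₁.biUnion (fun y => T₁.filter (fun i => S i x ∧ S i y))).card ≤
            Z₁.card * τ := by
          apply Finset.card_biUnion_le_card_mul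
          intro y hy
          apply H1 x (hGC (hA₁G hxA)) y (hZ₁C.1 hy)
          · intro h
            exact hA₁disj x hxA (h ▸ hy)
          · intro i hi
            exact (Finset.mem_filter.mp hi).2
        calc T₁.card ≤ _ := Finset.card_le_card h1
          _ ≤ Z₁.card * τ := h2
          _ ≤ (n + a) * τ := Nat.mul_le_mul_right _ hZ₁C.2
      rcases Nat.lt_or_ge 1 n with hn2 | hn2
      · have h3 := hT₂ (by omega)
        obtain ⟨n', rfl⟩ : ∃ n', n = n' + 1 := ⟨n - 1, by omega⟩
        rw [hm'] at h3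
        have e : n' + 1 - 1 = n' := by omega
        rw [e] at h3
        nlinarith [h3, hb, hTcard]
      · have hn1 : n = 1 := by omega
        have h3 := hT₂0 (by omega)
        rw [h3] at hTcard
        simp only [Finset.card_empty] at hTcard
        subst hn1
        nlinarith [hb, hTcard]
    · -- m ≥ 2
      have hb : T₁.card + 2 ≤ (τ + 1) * (m + (n + a) - 1) := by
        rcases Finset.eq_empty_or_nonempty T₁ with h0 | hne
        · rw [h0, Finset.card_empty]
          have : 2 * 1 ≤ (τ + 1) * (m + (n + a) - 1) := Nat.mul_le_mul (by omega) (by omega)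
          omega
        · have hdisj : Disjoint A₁ Z₁ := by
            rw [Finset.disjoint_left]
            exact hA₁disj
          have hZne : 1 ≤ Z₁.card := by
            obtain ⟨i, hi⟩ := hne
            obtain ⟨_, y, hy, _⟩ := hT₁ i hi
            exact Finset.card_pos.mpr ⟨y, hy⟩
          have hcard : (A₁ ∪ Z₁).card = m + Z₁.card := Finset.card_union_of_disjoint hdisj
          have h1 := H2 (A₁ ∪ Z₁) (Finset.union_subset (hA₁G.trans hGC) hZ₁C.1)
            (by omega) (by omega) T₁ (by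
              intro i hi
              obtain ⟨⟨x, hx, hxi⟩, y, hy, hyi⟩ := hT₁ i hi
              exact ⟨x, Finset.mem_union_left _ hx, y, Finset.mem_union_right _ hy,
                fun h => hA₁disj x hx (h ▸ hy), hxi, hyi⟩)
          rw [hcard] at h1
          calc T₁.card + 2 ≤ (τ + 1) * (m + Z₁.card - 1) := h1
            _ ≤ (τ + 1) * (m + (n + a) - 1) := Nat.mul_le_mul_left _ (by omega)
      rcases Nat.lt_or_ge m n with hlt | hge
      · have h3 := hT₂ hlt
        obtain ⟨n', rfl⟩ : ∃ n', n = n' + m := ⟨n - m, by omega⟩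
        have e1 : n' + m - m = n' := by omega
        have e2 : m + (n' + m + a) - 1 = 2 * m + (n' + a) - 1 := by omega
        rw [e1] at h3
        rw [e2] at hb
        have h4 := arithB τ m (n' + a) hτ hm2
        nlinarith [h3, h4, hb, hTcard]
      · have hmn' : m = n := by omega
        have h3 := hT₂0 hmn'
        rw [h3] at hTcard
        simp only [Finset.card_empty] at hTcard
        rw [← hmn'] at hb ⊢
        have e2 : m + (m + a) - 1 = 2 * m + a - 1 := by omega
        rw [e2] at hb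
        have h4 := arithA τ m a hτ hm2
        nlinarith [h4, hb, hTcard]

/-- The main counting: a history with an unidentified traitor is short. -/
lemma core_count (C : Finset W) (S : ℕ → W → Prop) (k τ : ℕ)
    (H1 : ∀ x ∈ C, ∀ y ∈ C, x ≠ y → ∀ T : Finset ℕ, (∀ i ∈ T, S i x ∧ S i y) → T.card ≤ τ)
    (H2 : ∀ M ⊆ C, 3 ≤ M.card → M.card ≤ 2 * k → ∀ T : Finset ℕ,
      (∀ i ∈ T, ∃ x ∈ M, ∃ y ∈ M, x ≠ y ∧ S i x ∧ S i y) → T.card + 2 ≤ (τ + 1) * (M.card - 1))
    (ℓ : ℕ) (U : ℕ → Finset W) (F : ℕ → Finset (Finset W))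
    (h0 : ∀ Z ∈ F 0, Z ⊆ C ∧ Z.card ≤ k)
    (hmono : ∀ i < ℓ, F (i + 1) ⊆ F i)
    (hS : ∀ i < ℓ, ∀ Z ∈ F (i + 1), ∃ x ∈ Z \ U i, S i x)
    (hU : ∀ i ≤ ℓ, ∀ x, x ∈ U i ↔ ∀ Z ∈ F i, x ∈ Z)
    (hU0 : U 0 = ∅)
    (X : Finset W) (hX : X ∈ F ℓ) (hXU : X ≠ U ℓ) :
    2 * ℓ + 2 ≤ τ * (k * (k + 1)) + 2 * k := by
  classical
  have hF : ∀ i j, i ≤ j → j ≤ ℓ → F j ⊆ F i := by
    intro i j hij
    induction j, hij using Nat.le_induction with
    | base => intro _; exact Finset.Subset.refl _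
    | succ j hij ih =>
      intro hj
      exact (hmono j (by omega)).trans (ih (by omega))
  have hUmono : ∀ i j, i ≤ j → j ≤ ℓ → U i ⊆ U j := by
    intro i j hij hj x hx
    rw [hU j hj]
    intro Z hZ
    exact (hU i (by omega) x).mp hx Z (hF i j hij hj hZ)
  have hFC : ∀ i ≤ ℓ, ∀ Z ∈ F i, Z ⊆ C ∧ Z.card ≤ k := by
    intro i hi Z hZ
    exact h0 Z (hF 0 i (Nat.zero_le _) hi hZ)
  have hUZ : ∀ i j, i ≤ j → j ≤ ℓ → ∀ Z ∈ F j, U i ⊆ Z := by
    intro i j hij hj Z hZ x hx
    exact (hU j hj x).mp (hUmono i j hij hj hx) Z hZ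
  have hXC := hFC ℓ le_rfl X hX
  have hUX : U ℓ ⊆ X := hUZ ℓ ℓ le_rfl le_rfl X hX
  have hUlt : (U ℓ).card < X.card := by
    apply Finset.card_lt_card
    rw [Finset.ssubset_iff_subset_ne]
    exact ⟨hUX, fun h => hXU h.symm⟩
  have hUk : ∀ i ≤ ℓ, (U i).card + 1 ≤ k := by
    intro i hi
    have := Finset.card_le_card (hUmono i ℓ hi le_rfl)
    omega
  -- the classes of coordinates
  let Fib : ℕ → Finset ℕ := fun s => (Finset.range s).filter (fun i =>
    (∃ x ∈ U (s + 1) \ U s, S i x) ∧ ∀ x ∈ U s \ U i, ¬ S i x)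
  let Inf : Finset ℕ := (Finset.range ℓ).filter (fun i => ∀ x ∈ U ℓ \ U i, ¬ S i x)
  let Idn : Finset ℕ := (Finset.range ℓ).filter (fun i => U (i + 1) ≠ U i)
  have hcover : Finset.range ℓ ⊆ Idn ∪ ((Finset.range ℓ).biUnion Fib ∪ Inf) := by
    intro i hi
    rw [Finset.mem_range] at hi
    by_cases h1 : U (i + 1) ≠ U i
    · apply Finset.mem_union_left
      simp only [Idn, Finset.mem_filter, Finset.mem_range]
      exact ⟨hi, h1⟩
    · push Not at h1
      apply Finset.mem_union_right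
      by_cases h2 : ∀ x ∈ U ℓ \ U i, ¬ S i x
      · apply Finset.mem_union_right
        simp only [Inf, Finset.mem_filter, Finset.mem_range]
        exact ⟨hi, h2⟩
      · apply Finset.mem_union_left
        -- least `j` such that an element of `U j \ U i` satisfies `S i`
        have hex : ∃ j, ∃ x ∈ U j \ U i, S i x ∧ j ≤ ℓ := by
          push Not at h2
          obtain ⟨x, hx, hxi⟩ := h2
          exact ⟨ℓ, x, hx, hxi, le_rfl⟩
        obtain ⟨x, hx, hxi, hj⟩ := Nat.find_spec hex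
        have hmin := fun m (hm : m < Nat.find hex) => Nat.find_min hex hm
        have hji : i + 1 < Nat.find hex := by
          by_contra hcon
          push Not at hcon
          have h3 : U (Nat.find hex) ⊆ U (i + 1) := hUmono _ _ hcon (by omega)
          rw [Finset.mem_sdiff] at hx
          have h4 := h3 hx.1
          rw [h1] at h4
          exact hx.2 h4
        obtain ⟨s, hs⟩ : ∃ s, Nat.find hex = s + 1 := ⟨Nat.find hex - 1, by omega⟩
        rw [Finset.mem_biUnion]
        refine ⟨s, by rw [Finset.mem_range]; omega, ?_⟩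
        simp only [Fib, Finset.mem_filter, Finset.mem_range]
        refine ⟨by omega, ⟨x, ?_, hxi⟩, ?_⟩
        · rw [hs] at hx
          rw [Finset.mem_sdiff] at hx ⊢
          refine ⟨hx.1, fun hxs => hmin s (by omega) ⟨x, ?_, hxi, by omega⟩⟩
          rw [Finset.mem_sdiff]
          exact ⟨hxs, hx.2⟩
        · intro y hy hyi
          exact hmin s (by omega) ⟨y, hy, hyi, by omega⟩
  have hcard1 : ℓ ≤ Idn.card + ((∑ s ∈ Finset.range ℓ, (Fib s).card) + Inf.card) := by
    have h1 := Finset.card_le_card hcover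
    rw [Finset.card_range] at h1
    have h2 := Finset.card_union_le Idn ((Finset.range ℓ).biUnion Fib ∪ Inf)
    have h3 := Finset.card_union_le ((Finset.range ℓ).biUnion Fib) Inf
    have h4 : ((Finset.range ℓ).biUnion Fib).card ≤ ∑ s ∈ Finset.range ℓ, (Fib s).card :=
      Finset.card_biUnion_le
    omega
  have hIdn : Idn.card = ∑ s ∈ Finset.range ℓ, (if U (s + 1) ≠ U s then 1 else 0) := by
    simp only [Idn, Finset.card_filter]
  -- each class is small
  have hstep : ∀ s < ℓ, 2 * ((if U (s + 1) ≠ U s then 1 else 0) + (Fib s).card) +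
      τ * ((k - (U (s + 1)).card) * (k - (U (s + 1)).card + 1)) + 2 * (U s).card ≤
      τ * ((k - (U s).card) * (k - (U s).card + 1)) + 2 * (U (s + 1)).card := by
    intro s hs
    by_cases h1 : U (s + 1) = U s
    · have h2 : Fib s = ∅ := by
        rw [Finset.eq_empty_iff_forall_notMem]
        intro i hi
        simp only [Fib, Finset.mem_filter, h1, Finset.sdiff_self] at hi
        obtain ⟨_, ⟨x, hx, _⟩, _⟩ := hi
        exact absurd hx (Finset.notMem_empty x)
      simp [h1, h2]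
    · have hsub : U s ⊆ U (s + 1) := hUmono s (s + 1) (by omega) (by omega)
      have hlt : (U s).card < (U (s + 1)).card := by
        apply Finset.card_lt_card
        rw [Finset.ssubset_iff_subset_ne]
        exact ⟨hsub, fun h => h1 h.symm⟩
      have hk1 := hUk (s + 1) (by omega)
      have h2 := lemB C S k τ H1 H2 ((U (s + 1)).card - (U s).card) (k - (U (s + 1)).card)
        (U (s + 1) \ U s) ((F s).image (fun Z => Z \ U s)) (Fib s)
        (Finset.card_sdiff_of_subset hsub) (by omega) (by omega) ?_ ?_ ?_ ?_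
      · have e : (U (s + 1)).card - (U s).card + (k - (U (s + 1)).card) = k - (U s).card := by
          omega
        rw [e] at h2
        simp only [ne_eq, h1, not_false_eq_true, if_true]
        omega
      · intro x hx
        rw [Finset.mem_sdiff] at hx
        exact hXC.1 (hUX (hUmono (s + 1) ℓ (by omega) le_rfl hx.1))
      · intro Z hZ
        rw [Finset.mem_image] at hZ
        obtain ⟨Z', hZ', rfl⟩ := hZ
        have h3 := hFC s (by omega) Z' hZ'
        refine ⟨Finset.sdiff_subset.trans h3.1, ?_⟩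
        rw [Finset.card_sdiff_of_subset (hUZ s s le_rfl (by omega) Z' hZ')]
        omega
      · intro x hx
        rw [Finset.mem_sdiff] at hx
        have h3 : ¬ ∀ Z ∈ F s, x ∈ Z := by
          intro hc
          exact hx.2 ((hU s (by omega) x).mpr hc)
        push Not at h3
        obtain ⟨Z, hZ, hxZ⟩ := h3
        exact ⟨Z \ U s, Finset.mem_image_of_mem _ hZ, fun h => hxZ (Finset.mem_sdiff.mp h).1⟩
      · intro i hi
        simp only [Fib, Finset.mem_filter, Finset.mem_range] at hi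
        obtain ⟨his, h3, h4⟩ := hi
        refine ⟨h3, ?_⟩
        intro Z hZ
        rw [Finset.mem_image] at hZ
        obtain ⟨Z', hZ', rfl⟩ := hZ
        obtain ⟨y, hy, hyi⟩ := hS i (by omega) Z' (hF (i + 1) s (by omega) (by omega) hZ')
        rw [Finset.mem_sdiff] at hy
        refine ⟨y, ?_, hyi⟩
        rw [Finset.mem_sdiff]
        refine ⟨hy.1, fun hys => h4 y ?_ hyi⟩
        rw [Finset.mem_sdiff]
        exact ⟨hys, hy.2⟩
  -- telescoping
  have htel : ∀ m ≤ ℓ, 2 * (∑ s ∈ Finset.range m, (if U (s + 1) ≠ U s then 1 else 0) +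
      ∑ s ∈ Finset.range m, (Fib s).card) +
      τ * ((k - (U m).card) * (k - (U m).card + 1)) ≤ τ * (k * (k + 1)) + 2 * (U m).card := by
    intro m
    induction m with
    | zero => intro _; simp [hU0]
    | succ m ih =>
      intro hm
      have h1 := ih (by omega)
      have h2 := hstep m (by omega)
      rw [Finset.sum_range_succ, Finset.sum_range_succ]
      omega
  have h1 := htel ℓ le_rfl
  rw [← hIdn] at h1
  -- the last class
  have hXk := hXC.2
  have h2 := lemB C S k τ H1 H2 (X.card - (U ℓ).card) (k - X.card)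
    (X \ U ℓ) ((F ℓ).image (fun Z => Z \ U ℓ)) Inf
    (Finset.card_sdiff_of_subset hUX) (by omega) (by omega)
    (Finset.sdiff_subset.trans hXC.1) ?_ ?_ ?_
  · have e : X.card - (U ℓ).card + (k - X.card) = k - (U ℓ).card := by omega
    rw [e] at h2
    have h3 : 0 ≤ τ * ((k - X.card) * (k - X.card + 1)) := Nat.zero_le _
    omega
  · intro Z hZ
    rw [Finset.mem_image] at hZ
    obtain ⟨Z', hZ', rfl⟩ := hZ
    have h3 := hFC ℓ le_rfl Z' hZ'
    refine ⟨Finset.sdiff_subset.trans h3.1, ?_⟩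
    rw [Finset.card_sdiff_of_subset (hUZ ℓ ℓ le_rfl le_rfl Z' hZ')]
    omega
  · intro x hx
    rw [Finset.mem_sdiff] at hx
    have h3 : ¬ ∀ Z ∈ F ℓ, x ∈ Z := by
      intro hc
      exact hx.2 ((hU ℓ le_rfl x).mpr hc)
    push Not at h3
    obtain ⟨Z, hZ, hxZ⟩ := h3
    exact ⟨Z \ U ℓ, Finset.mem_image_of_mem _ hZ, fun h => hxZ (Finset.mem_sdiff.mp h).1⟩
  · intro i hi
    simp only [Inf, Finset.mem_filter, Finset.mem_range] at hi
    obtain ⟨hil, h4⟩ := hi
    have h5 : ∀ Z ∈ (F ℓ).image (fun Z => Z \ U ℓ), ∃ y ∈ Z, S i y := by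
      intro Z hZ
      rw [Finset.mem_image] at hZ
      obtain ⟨Z', hZ', rfl⟩ := hZ
      obtain ⟨y, hy, hyi⟩ := hS i (by omega) Z' (hF (i + 1) ℓ (by omega) le_rfl hZ')
      rw [Finset.mem_sdiff] at hy
      refine ⟨y, ?_, hyi⟩
      rw [Finset.mem_sdiff]
      refine ⟨hy.1, fun hys => h4 y ?_ hyi⟩
      rw [Finset.mem_sdiff]
      exact ⟨hys, hy.2⟩
    exact ⟨h5 _ (Finset.mem_image_of_mem _ hX), h5⟩

end Count

section Canonical

variable {q ℓ : ℕ}

open Classical in
/-- One step of the canonical tracer. The state is (number of rounds, identified set, family of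
all possible sets of traitors). -/
noncomputable def stepC (C : Finset (Word q ℓ))
    (s : ℕ × Finset (Word q ℓ) × Finset (Finset (Word q ℓ))) (a : Fin q) :
    ℕ × Finset (Word q ℓ) × Finset (Finset (Word q ℓ)) :=
  let F' := s.2.2.filter (fun Z => ∃ x ∈ Z \ s.2.1, ∃ h : s.1 < ℓ, x ⟨s.1, h⟩ = a)
  (s.1 + 1, C.filter (fun x => ∀ Z ∈ F', x ∈ Z), F')

/-- The state of the canonical tracer. -/
noncomputable def stC (C : Finset (Word q ℓ)) (k : ℕ) (w : List (Fin q)) :
    ℕ × Finset (Word q ℓ) × Finset (Finset (Word q ℓ)) :=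
  w.foldl (stepC C) (0, ∅, C.powerset.filter (fun Z => Z.card ≤ k))

lemma stC_append (C : Finset (Word q ℓ)) (k : ℕ) (w : List (Fin q)) (a : Fin q) :
    stC C k (w ++ [a]) = stepC C (stC C k w) a := by
  simp [stC, List.foldl_append]

lemma stC_fst (C : Finset (Word q ℓ)) (k : ℕ) (w : List (Fin q)) :
    (stC C k w).1 = w.length := by
  induction w using List.reverseRecOn with
  | nil => rfl
  | append_singleton w a ih =>
    rw [stC_append]
    simp [stepC, ih]

lemma mem_fam_append (C : Finset (Word q ℓ)) (k : ℕ) (w : List (Fin q)) (a : Fin q)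
    (Z : Finset (Word q ℓ)) :
    Z ∈ (stC C k (w ++ [a])).2.2 ↔ Z ∈ (stC C k w).2.2 ∧
      ∃ x ∈ Z \ (stC C k w).2.1, ∃ h : w.length < ℓ, x ⟨w.length, h⟩ = a := by
  classical
  rw [stC_append]
  simp only [stepC, Finset.mem_filter]
  have h := stC_fst C k w
  constructor
  · rintro ⟨h1, x, hx, h2, h3⟩
    refine ⟨h1, x, hx, by omega, ?_⟩
    rw [← h3]
    congr 1
    exact Fin.ext h.symm
  · rintro ⟨h1, x, hx, h2, h3⟩
    refine ⟨h1, x, hx, by omega, ?_⟩
    rw [← h3]
    congr 1
    exact Fin.ext h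

lemma mem_idf_append (C : Finset (Word q ℓ)) (k : ℕ) (w : List (Fin q)) (a : Fin q)
    (x : Word q ℓ) :
    x ∈ (stC C k (w ++ [a])).2.1 ↔ x ∈ C ∧ ∀ Z ∈ (stC C k (w ++ [a])).2.2, x ∈ Z := by
  classical
  rw [stC_append]
  simp only [stepC, Finset.mem_filter]

lemma idf_spec (C : Finset (Word q ℓ)) (k : ℕ) (w : List (Fin q)) (x : Word q ℓ)
    (hx : x ∈ (stC C k w).2.1) : x ∈ C ∧ ∀ Z ∈ (stC C k w).2.2, x ∈ Z := by
  induction w using List.reverseRecOn with
  | nil => simp [stC] at hx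
  | append_singleton w a ih => exact (mem_idf_append C k w a x).mp hx

lemma idf_mono (C : Finset (Word q ℓ)) (k : ℕ) (w : List (Fin q)) (a : Fin q) :
    (stC C k w).2.1 ⊆ (stC C k (w ++ [a])).2.1 := by
  intro x hx
  have h := idf_spec C k w x hx
  rw [mem_idf_append]
  refine ⟨h.1, fun Z hZ => h.2 Z ?_⟩
  exact ((mem_fam_append C k w a Z).mp hZ).1

lemma fam_append_sub (C : Finset (Word q ℓ)) (k : ℕ) (u v : List (Fin q)) :
    (stC C k (u ++ v)).2.2 ⊆ (stC C k u).2.2 := by
  induction v using List.reverseRecOn with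
  | nil => simp
  | append_singleton v a ih =>
    intro Z hZ
    rw [← List.append_assoc] at hZ
    exact ih ((mem_fam_append C k _ a Z).mp hZ).1

lemma fam_take (C : Finset (Word q ℓ)) (k : ℕ) (w : List (Fin q)) (X : Finset (Word q ℓ))
    (hX : X ∈ (stC C k w).2.2) (i : ℕ) : X ∈ (stC C k (w.take i)).2.2 := by
  apply fam_append_sub C k (w.take i) (w.drop i)
  rw [List.take_append_drop]
  exact hX

lemma reach_canon (C : Finset (Word q ℓ)) (k : ℕ) (X : Finset (Word q ℓ)) (hXC : X ⊆ C)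
    (hXk : X.card ≤ k) (w : List (Fin q)) (U : Finset (Word q ℓ))
    (h : Reach (fun w _ => (stC C k w).2.1) X w U) :
    U = (stC C k w).2.1 ∧ X ∈ (stC C k w).2.2 ∧ w.length ≤ ℓ := by
  classical
  induction h with
  | start =>
    refine ⟨by simp [stC], ?_, by simp⟩
    simp only [stC, List.foldl_nil, Finset.mem_filter, Finset.mem_powerset]
    exact ⟨hXC, hXk⟩
  | round w U i x hr hi hx ih =>
    obtain ⟨h1, h2, h3⟩ := ih
    refine ⟨?_, ?_, ?_⟩
    · rw [h1]
      exact Finset.union_eq_right.mpr (idf_mono C k w (x i))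
    · rw [mem_fam_append]
      refine ⟨h2, x, ?_, by omega, ?_⟩
      · rw [← h1]; exact hx
      · congr 1
        exact Fin.ext hi
    · simp only [List.length_append, List.length_singleton]
      omega

/-- A sufficient condition for being a sequential `k`-IPP code. -/
theorem isSeqIPP_of_sparse {k τ : ℕ} (hℓ : τ * (k * (k + 1)) + 2 * k ≤ 2 * ℓ)
    (C : Finset (Word q ℓ))
    (H1 : ∀ x ∈ C, ∀ y ∈ C, x ≠ y → ∀ T : Finset (Fin ℓ), (∀ i ∈ T, x i = y i) → T.card ≤ τ)
    (H2 : ∀ M ⊆ C, 3 ≤ M.card → M.card ≤ 2 * k → ∀ T : Finset (Fin ℓ),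
      (∀ i ∈ T, ∃ x ∈ M, ∃ y ∈ M, x ≠ y ∧ x i = y i) → T.card + 2 ≤ (τ + 1) * (M.card - 1)) :
    IsSeqIPP k C := by
  classical
  refine ⟨fun w _ => (stC C k w).2.1, ?_⟩
  intro X hXC hXk w U hr
  obtain ⟨h1, h2, _⟩ := reach_canon C k X hXC hXk w U hr
  refine ⟨?_, ?_⟩
  · rw [h1]
    intro x hx
    exact (idf_spec C k w x hx).2 X h2
  · intro hw
    by_contra hne
    let S : ℕ → Word q ℓ → Prop := fun i x => ∃ h : i < ℓ, x ⟨i, h⟩ = w[i]'(by omega)
    -- transfer of coordinate sets
    have hconv : ∀ T : Finset ℕ, (∀ i ∈ T, i < ℓ) →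
        ∃ T' : Finset (Fin ℓ), T'.card = T.card ∧ ∀ i ∈ T', (i : ℕ) ∈ T := by
      intro T hT
      refine ⟨T.attachFin hT, Finset.card_attachFin _ _, ?_⟩
      intro i hi
      exact (Finset.mem_attachFin hT).mp hi
    have hcc := core_count C S k τ ?_ ?_ ℓ (fun i => (stC C k (w.take i)).2.1)
      (fun i => (stC C k (w.take i)).2.2) ?_ ?_ ?_ ?_ ?_ X ?_ ?_
    · omega
    · intro x hx y hy hxy T hT
      obtain ⟨T', hT'c, hT'⟩ := hconv T (fun i hi => (hT i hi).1.1)
      rw [← hT'c]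
      apply H1 x hx y hy hxy T'
      intro i hi
      obtain ⟨⟨h3, h4⟩, ⟨h5, h6⟩⟩ := hT i (hT' i hi)
      exact h4.trans h6.symm
    · intro M hM hM3 hMk T hT
      obtain ⟨T', hT'c, hT'⟩ := hconv T (fun i hi => by
        obtain ⟨x, _, _, _, _, ⟨h, _⟩, _⟩ := hT i hi
        exact h)
      rw [← hT'c]
      apply H2 M hM hM3 hMk T'
      intro i hi
      obtain ⟨x, hx, y, hy, hxy, ⟨h3, h4⟩, ⟨h5, h6⟩⟩ := hT i (hT' i hi)
      exact ⟨x, hx, y, hy, hxy, h4.trans h6.symm⟩
    · intro Z hZ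
      simp only [List.take_zero, stC, List.foldl_nil, Finset.mem_filter,
        Finset.mem_powerset] at hZ
      exact hZ
    · intro i hi Z hZ
      rw [List.take_add_one, List.getElem?_eq_getElem (by omega)] at hZ
      simp only [Option.toList_some] at hZ
      exact ((mem_fam_append C k _ _ Z).mp hZ).1
    · intro i hi Z hZ
      rw [List.take_add_one, List.getElem?_eq_getElem (by omega)] at hZ
      simp only [Option.toList_some] at hZ
      obtain ⟨_, x, hx, h3, h4⟩ := (mem_fam_append C k _ _ Z).mp hZ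
      refine ⟨x, hx, hi, ?_⟩
      rw [← h4]
      congr 1
      apply Fin.ext
      simp
      omega
    · intro i hi x
      constructor
      · intro hx
        exact (idf_spec C k _ x hx).2
      · intro hx
        rcases Nat.eq_zero_or_pos i with h0 | h0
        · subst h0
          have := hx ∅ (by simp [stC])
          simp at this
        · obtain ⟨j, rfl⟩ : ∃ j, i = j + 1 := ⟨i - 1, by omega⟩
          rw [List.take_add_one, List.getElem?_eq_getElem (by omega)] at hx ⊢
          simp only [Option.toList_some] at hx ⊢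
          rw [mem_idf_append]
          refine ⟨?_, hx⟩
          have h5 := fam_take C k w X h2 (j + 1)
          rw [List.take_add_one, List.getElem?_eq_getElem (by omega)] at h5
          exact hXC (hx X h5)
    · simp [stC]
    · rw [List.take_of_length_le (by omega)]
      exact h2
    · rw [List.take_of_length_le (by omega), ← h1]
      exact fun h => hne h.symm

end Canonical

end Pool.Agent.Lib.MP_96bab1_co
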