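import Mathlib

/-!
Sequential `k`-IPP codes: the definitions of problem MP_96bab1_co.
-/

namespace Pool.Agent.Lib.MP_96bab1_co

/-- Words of length `ℓ` over the alphabet `Fin q`. -/
abbrev Word (q ℓ : ℕ) : Type := Fin ℓ → Fin q

/-- A tracing algorithm for a fixed code. From the list `[d₁, …, dᵢ]` of all symbols received
so far and the current set `U` of identified traitors, it outputs the finite set of words that
the tracer adds to `U`. -/
abbrev Tracer (q ℓ : ℕ) : Type :=
  List (Fin q) → Finset (Word q ℓ) → Finset (Word q ℓ)

/-- `Reach 𝒜 X w U`: if the set of traitors is `X` and the tracer uses the algorithm `𝒜`, then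
the adversary can choose the symbols in such a way that after `w.length` rounds the symbols
received are `w` (in this order) and the current set of identified traitors is `U`.
Initially nothing is received and `U = ∅`. In the round number `i + 1` (the coordinates are
numbered `0, 1, …, ℓ - 1`) the tracer receives the symbol `x i` of some traitor `x ∈ X \ U`
(so the round takes place only when `X \ U` is nonempty), and then adds the output of the
algorithm to `U`. -/
inductive Reach {q ℓ : ℕ} (𝒜 : Tracer q ℓ) (X : Finset (Word q ℓ)) :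
    List (Fin q) → Finset (Word q ℓ) → Prop
  | start : Reach 𝒜 X [] ∅
  | round (w : List (Fin q)) (U : Finset (Word q ℓ)) (i : Fin ℓ) (x : Word q ℓ) :
      Reach 𝒜 X w U → w.length = (i : ℕ) → x ∈ X \ U →
        Reach 𝒜 X (w ++ [x i]) (U ∪ 𝒜 (w ++ [x i]) U)

/-- The code `C` is a sequential `k`-IPP code: for some algorithm, for all sets `X ⊆ C` of at
most `k` traitors and all choices of the symbols, only traitors are ever added to `U`, and if
all `ℓ` rounds take place then `U = X` at the end (if fewer rounds take place then the process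
stopped because `X \ U` was empty). -/
def IsSeqIPP {q ℓ : ℕ} (k : ℕ) (C : Finset (Word q ℓ)) : Prop :=
  ∃ 𝒜 : Tracer q ℓ, ∀ X ⊆ C, X.card ≤ k →
    ∀ (w : List (Fin q)) (U : Finset (Word q ℓ)), Reach 𝒜 X w U →
      U ⊆ X ∧ (w.length = ℓ → U = X)

/-- `N(q, ℓ, k)`: the largest number of codewords of a sequential `q`-ary `k`-IPP code of
length `ℓ`. -/
noncomputable def maxSize (q ℓ k : ℕ) : ℕ :=
  sSup {n : ℕ | ∃ C : Finset (Word q ℓ), C.card = n ∧ IsSeqIPP k C}

/-- `R(q, ℓ, k) = (1 / ℓ) log_q N(q, ℓ, k)`. -/
noncomputable def rate (q ℓ k : ℕ) : ℝ :=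
  Real.logb q (maxSize q ℓ k) / ℓ

end Pool.Agent.Lib.MP_96bab1_co
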