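import Mathlib

/-!
Generic vectors modulo a large prime (existence by counting).
-/

namespace Pool.Agent.Lib.MP_96bab1_co

open Finset

section Generic

variable {p : ℕ} [Fact p.Prime] {t n : ℕ}

/-- Hyperplanes have the right number of points. -/
lemma card_hyperplane (w : Fin t → ZMod p) (hw : w ≠ 0) :
    (Finset.univ.filter (fun u : Fin t → ZMod p => ∑ s, w s * u s = 0)).card * p = p ^ t := by
  classical
  obtain ⟨s0, hs0⟩ : ∃ s, w s ≠ 0 := by
    by_contra h
    push Not at h
    exact hw (funext h)
  -- fibres of `u ↦ ∑ w u`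
  let f : (Fin t → ZMod p) → ZMod p := fun u => ∑ s, w s * u s
  have hfib : ∀ a : ZMod p, (Finset.univ.filter (fun u => f u = a)).card =
      (Finset.univ.filter (fun u => f u = 0)).card := by
    intro a
    have hf : ∀ u, f (u - Pi.single s0 (a / w s0)) = f u - a := by
      intro u
      simp only [f, Pi.sub_apply, mul_sub, Finset.sum_sub_distrib]
      congr 1
      rw [Finset.sum_eq_single s0]
      · simp only [Pi.single_eq_same]; field_simp
      · intro b _ hb
        rw [Pi.single_eq_of_ne hb]; simp
      · simp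
    apply Finset.card_bij (fun u _ => u - Pi.single s0 (a / w s0))
    · intro u hu
      simp only [Finset.mem_filter, Finset.mem_univ, true_and] at hu ⊢
      rw [hf, hu, sub_self]
    · intro u _ u' _ h
      exact sub_left_inj.mp h
    · intro u hu
      refine ⟨u + Pi.single s0 (a / w s0), ?_, by simp⟩
      simp only [Finset.mem_filter, Finset.mem_univ, true_and] at hu ⊢
      have := hf (u + Pi.single s0 (a / w s0))
      rw [add_sub_cancel_right, hu] at this
      linear_combination -this
  have h1 := Finset.card_eq_sum_card_fiberwise (s := (Finset.univ : Finset (Fin t → ZMod p)))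
    (t := (Finset.univ : Finset (ZMod p))) (f := f) (fun _ _ => Finset.mem_coe.mpr (Finset.mem_univ _))
  simp only [hfib] at h1
  simp only [Finset.sum_const, Finset.card_univ, ZMod.card, smul_eq_mul, Fintype.card_pi,
    Finset.prod_const, Fintype.card_fin] at h1
  rw [mul_comm]
  exact h1.symm

/-- Number of tuples of vectors satisfying prescribed orthogonality conditions. -/
lemma card_tuples (T : Finset (Fin n)) (w : Fin n → Fin t → ZMod p) (hw : ∀ i ∈ T, w i ≠ 0) :
    (Finset.univ.filter (fun v : Fin n → Fin t → ZMod p =>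
      ∀ i ∈ T, ∑ s, w i s * v i s = 0)).card * p ^ T.card = (p ^ t) ^ n := by
  classical
  have h1 : (Finset.univ.filter (fun v : Fin n → Fin t → ZMod p =>
      ∀ i ∈ T, ∑ s, w i s * v i s = 0)) = Fintype.piFinset (fun i =>
        if i ∈ T then Finset.univ.filter (fun u : Fin t → ZMod p => ∑ s, w i s * u s = 0)
        else Finset.univ) := by
    ext v
    simp only [Finset.mem_filter, Finset.mem_univ, true_and, Fintype.mem_piFinset]
    constructor
    · intro h i
      by_cases hi : i ∈ T
      · simp only [hi, if_true, Finset.mem_filter, Finset.mem_univ, true_and]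
        exact h i hi
      · simp [hi]
    · intro h i hi
      have := h i
      simp only [hi, if_true, Finset.mem_filter, Finset.mem_univ, true_and] at this
      exact this
  rw [h1, Fintype.card_piFinset]
  have h2 : p ^ T.card = ∏ i : Fin n, (if i ∈ T then p else 1) := by
    rw [Finset.prod_ite]
    simp
  rw [h2, ← Finset.prod_mul_distrib]
  have h3 : ∀ i : Fin n, ((if i ∈ T then Finset.univ.filter
      (fun u : Fin t → ZMod p => ∑ s, w i s * u s = 0) else Finset.univ).card *
      (if i ∈ T then p else 1)) = p ^ t := by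
    intro i
    by_cases hi : i ∈ T
    · simp only [hi, if_true]
      exact card_hyperplane (w i) (hw i hi)
    · simp [hi, ZMod.card]
  rw [Finset.prod_congr rfl (fun i _ => h3 i)]
  simp

/-- Solutions of a pattern. -/
def Sol (c : ℕ) (T : Finset (Fin n)) (e : Fin n → Fin (c + 1) × Fin (c + 1))
    (v : Fin n → Fin t → ZMod p) : Finset (Fin (c + 1) → Fin t → ZMod p) :=
  Finset.univ.filter (fun μ => μ 0 = 0 ∧ ∀ i ∈ T, μ (e i).1 - μ (e i).2 ≠ 0 ∧
    ∑ s, (μ (e i).1 - μ (e i).2) s * v i s = 0)

lemma sum_card_Sol_mul (c : ℕ) (T : Finset (Fin n)) (e : Fin n → Fin (c + 1) × Fin (c + 1)) :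
    (∑ v : Fin n → Fin t → ZMod p, (Sol c T e v).card) * p ^ T.card ≤
      (p ^ t) ^ c * (p ^ t) ^ n := by
  classical
  have hp : 0 < p := (Fact.out : p.Prime).pos
  have h1 : ∑ v : Fin n → Fin t → ZMod p, (Sol c T e v).card =
      ∑ μ : Fin (c + 1) → Fin t → ZMod p,
        (Finset.univ.filter (fun v : Fin n → Fin t → ZMod p => μ ∈ Sol c T e v)).card := by
    have h2 : ∀ v : Fin n → Fin t → ZMod p, (Sol c T e v).card =
        ∑ μ : Fin (c + 1) → Fin t → ZMod p, if μ ∈ Sol c T e v then 1 else 0 := by
      intro v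
      rw [← Finset.card_filter]
      congr 1
      ext μ
      simp
    simp only [h2]
    rw [Finset.sum_comm]
    simp only [Finset.card_filter]
  have h3 : ∀ μ : Fin (c + 1) → Fin t → ZMod p,
      (Finset.univ.filter (fun v : Fin n → Fin t → ZMod p => μ ∈ Sol c T e v)).card * p ^ T.card
      ≤ if μ 0 = 0 then (p ^ t) ^ n else 0 := by
    intro μ
    by_cases h0 : μ 0 = 0
    · simp only [h0, if_true]
      by_cases hne : ∀ i ∈ T, μ (e i).1 - μ (e i).2 ≠ 0
      · rw [← card_tuples T (fun i => μ (e i).1 - μ (e i).2) hne]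
        apply Nat.mul_le_mul_right
        apply Finset.card_le_card
        intro v hv
        simp only [Finset.mem_filter, Finset.mem_univ, true_and, Sol] at hv ⊢
        intro i hi
        exact (hv.2 i hi).2
      · have : (Finset.univ.filter (fun v : Fin n → Fin t → ZMod p => μ ∈ Sol c T e v)) = ∅ := by
          rw [Finset.eq_empty_iff_forall_notMem]
          intro v hv
          simp only [Finset.mem_filter, Finset.mem_univ, true_and, Sol] at hv
          exact hne (fun i hi => (hv.2 i hi).1)
        rw [this]; simp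
    · have : (Finset.univ.filter (fun v : Fin n → Fin t → ZMod p => μ ∈ Sol c T e v)) = ∅ := by
        rw [Finset.eq_empty_iff_forall_notMem]
        intro v hv
        simp only [Finset.mem_filter, Finset.mem_univ, true_and, Sol] at hv
        exact h0 hv.1
      rw [this]; simp
  have h4 : (Finset.univ.filter (fun μ : Fin (c + 1) → Fin t → ZMod p => μ 0 = 0)).card ≤
      (p ^ t) ^ c := by
    have h5 : (Finset.univ.filter (fun μ : Fin (c + 1) → Fin t → ZMod p => μ 0 = 0)).card ≤
        (Finset.univ : Finset (Fin c → Fin t → ZMod p)).card := by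
      apply Finset.card_le_card_of_injOn (fun μ => fun j => μ j.succ)
      · intro μ _; simp
      · intro μ hμ μ' hμ' h
        simp only [Finset.coe_filter, Finset.mem_univ, true_and, Set.mem_ofPred_eq] at hμ hμ'
        funext j
        refine Fin.cases ?_ ?_ j
        · rw [hμ, hμ']
        · intro j; exact congrFun h j
    simpa [ZMod.card] using h5
  · rw [h1, Finset.sum_mul]
    calc _ ≤ ∑ μ : Fin (c + 1) → Fin t → ZMod p, (if μ 0 = 0 then (p ^ t) ^ n else 0) :=
          Finset.sum_le_sum (fun μ _ => h3 μ)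
      _ = (Finset.univ.filter (fun μ : Fin (c + 1) → Fin t → ZMod p => μ 0 = 0)).card *
            (p ^ t) ^ n := by
          rw [← Finset.sum_filter]; simp
      _ ≤ (p ^ t) ^ c * (p ^ t) ^ n := Nat.mul_le_mul_right _ h4

lemma sum_card_Sol (c : ℕ) (T : Finset (Fin n)) (e : Fin n → Fin (c + 1) × Fin (c + 1))
    (hT : T.card = t * c) :
    ∑ v : Fin n → Fin t → ZMod p, (Sol c T e v).card ≤ (p ^ t) ^ n := by
  have hp : 0 < p := (Fact.out : p.Prime).pos
  have h6 := sum_card_Sol_mul (p := p) (t := t) c T e
  have h7 : (∑ v : Fin n → Fin t → ZMod p, (Sol c T e v).card) * p ^ T.card ≤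
      (p ^ t) ^ n * p ^ T.card := by
    refine h6.trans (le_of_eq ?_)
    rw [hT, ← pow_mul, ← pow_mul, mul_comm]
  exact Nat.le_of_mul_le_mul_right h7 (pow_pos hp _)

lemma card_Sol_ge (c : ℕ) (T : Finset (Fin n)) (e : Fin n → Fin (c + 1) × Fin (c + 1))
    (v : Fin n → Fin t → ZMod p) (hT : T.Nonempty) (h : (Sol c T e v).Nonempty) :
    p - 1 ≤ (Sol c T e v).card := by
  classical
  obtain ⟨μ, hμ⟩ := h
  simp only [Sol, Finset.mem_filter, Finset.mem_univ, true_and] at hμ
  obtain ⟨i0, hi0⟩ := hT
  have h1 : (Finset.univ : Finset (ZMod p)ˣ).card = p - 1 := by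
    rw [Finset.card_univ, ZMod.card_units_eq_totient, Nat.totient_prime Fact.out]
  rw [← h1]
  apply Finset.card_le_card_of_injOn (fun a : (ZMod p)ˣ => (a : ZMod p) • μ)
  · intro a _
    simp only [Sol, Finset.coe_filter, Finset.mem_univ, true_and, Set.mem_ofPred_eq]
    refine ⟨?_, ?_⟩
    · simp [hμ.1]
    · intro i hi
      obtain ⟨h2, h3⟩ := hμ.2 i hi
      constructor
      · simp only [Pi.smul_apply, ← smul_sub]
        exact smul_ne_zero a.ne_zero h2
      · simp only [Pi.smul_apply, ← smul_sub, smul_eq_mul, mul_assoc, ← Finset.mul_sum]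
        rw [h3, mul_zero]
  · intro a _ b _ hab
    have h2 := (hμ.2 i0 hi0).1
    have h3 : (a : ZMod p) • (μ (e i0).1 - μ (e i0).2) = (b : ZMod p) • (μ (e i0).1 - μ (e i0).2) := by
      have h4 := congrFun hab (e i0).1
      have h5 := congrFun hab (e i0).2
      simp only [Pi.smul_apply] at h4 h5
      rw [smul_sub, smul_sub, h4, h5]
    have h4 : ((a : ZMod p) - b) • (μ (e i0).1 - μ (e i0).2) = 0 := by
      rw [sub_smul, h3, sub_self]
    rcases smul_eq_zero.mp h4 with h5 | h5
    · exact Units.ext (sub_eq_zero.mp h5)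
    · exact absurd h5 h2

end Generic

/-- Existence of generic vectors modulo some prime. -/
theorem exists_generic (t n K : ℕ) : ∃ p : ℕ, p.Prime ∧ ∃ v : Fin n → Fin t → ZMod p,
    ∀ M : Finset (Fin t → ZMod p), 2 ≤ M.card → M.card ≤ K → ∀ T : Finset (Fin n),
      (∀ i ∈ T, ∃ x ∈ M, ∃ y ∈ M, x ≠ y ∧ ∑ s, (x s - y s) * v i s = 0) →
      T.card + 1 ≤ t * (M.card - 1) := by
  classical
  -- number of patterns
  let Pat : ℕ := ∑ c ∈ Finset.range K, ∑ _T : Finset (Fin n),
    ∑ _e : Fin n → Fin (c + 1) × Fin (c + 1), 1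
  obtain ⟨p, hp1, hp⟩ := Nat.exists_infinite_primes (Pat + 2)
  refine ⟨p, hp, ?_⟩
  have : Fact p.Prime := ⟨hp⟩
  by_contra hcon
  push Not at hcon
  have hpos : 0 < (p ^ t) ^ n := pow_pos (pow_pos hp.pos _) _
  have htot : ∀ v : Fin n → Fin t → ZMod p, p - 1 ≤ ∑ c ∈ Finset.range K, ∑ T : Finset (Fin n),
      ∑ e : Fin n → Fin (c + 1) × Fin (c + 1), if T.card = t * c then (Sol c T e v).card else 0 := by
    intro v
    obtain ⟨M, hM2, hMK, T, hT, hTM⟩ := hcon v
    have h1 : t * (M.card - 1) ≤ T.card := by omega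
    obtain ⟨T', hT'T, hT'c⟩ := Finset.exists_subset_card_eq h1
    -- t is positive
    have htpos : 0 < t := by
      rcases Nat.eq_zero_or_pos t with h0 | h0
      · subst h0
        exfalso
        have : M.card ≤ 1 := by
          rw [Finset.card_le_one]
          intro a _ b _
          exact funext (fun i => i.elim0)
        omega
      · exact h0
    obtain ⟨c, hc⟩ : ∃ c, M.card = c + 1 := ⟨M.card - 1, by omega⟩
    have hc1 : M.card - 1 = c := by omega
    rw [hc1] at hT'c
    let E := Finset.equivFinOfCardEq hc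
    -- choice of the edges
    have hch : ∀ i : Fin n, ∃ ab : Fin (c + 1) × Fin (c + 1), i ∈ T →
        ((E.symm ab.1 : Fin t → ZMod p) ≠ (E.symm ab.2 : Fin t → ZMod p) ∧
        ∑ s, ((E.symm ab.1 : Fin t → ZMod p) s - (E.symm ab.2 : Fin t → ZMod p) s) * v i s = 0) := by
      intro i
      by_cases hi : i ∈ T
      · obtain ⟨x, hx, y, hy, hxy, hs⟩ := hT i hi
        refine ⟨(E ⟨x, hx⟩, E ⟨y, hy⟩), fun _ => ?_⟩
        simp only [Equiv.symm_apply_apply]
        exact ⟨hxy, hs⟩
      · exact ⟨(0, 0), fun h => absurd h hi⟩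
    choose e he using hch
    have hSol : (Sol c T' e v).Nonempty := by
      refine ⟨fun j => (E.symm j : Fin t → ZMod p) - (E.symm 0 : Fin t → ZMod p), ?_⟩
      simp only [Sol, Finset.mem_filter, Finset.mem_univ, true_and, sub_self, sub_sub_sub_cancel_right,
        Pi.sub_apply]
      intro i hi
      have := he i (hT'T hi)
      exact ⟨sub_ne_zero.mpr this.1, this.2⟩
    have hT'ne : T'.Nonempty := by
      rw [← Finset.card_pos, hT'c]
      exact Nat.mul_pos htpos (by omega)
    have h2 := card_Sol_ge c T' e v hT'ne hSol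
    calc p - 1 ≤ (Sol c T' e v).card := h2
      _ = (if T'.card = t * c then (Sol c T' e v).card else 0) := by simp [hT'c]
      _ ≤ ∑ e : Fin n → Fin (c + 1) × Fin (c + 1),
            (if T'.card = t * c then (Sol c T' e v).card else 0) :=
          Finset.single_le_sum (f := fun e => if T'.card = t * c then (Sol c T' e v).card else 0)
            (fun _ _ => Nat.zero_le _) (Finset.mem_univ e)
      _ ≤ ∑ T : Finset (Fin n), ∑ e : Fin n → Fin (c + 1) × Fin (c + 1),
            (if T.card = t * c then (Sol c T e v).card else 0) :=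
          Finset.single_le_sum (f := fun T => ∑ e : Fin n → Fin (c + 1) × Fin (c + 1),
            (if T.card = t * c then (Sol c T e v).card else 0))
            (fun _ _ => Nat.zero_le _) (Finset.mem_univ T')
      _ ≤ _ :=
          Finset.single_le_sum (f := fun c => ∑ T : Finset (Fin n),
            ∑ e : Fin n → Fin (c + 1) × Fin (c + 1),
            (if T.card = t * c then (Sol c T e v).card else 0))
            (fun _ _ => Nat.zero_le _) (Finset.mem_range.mpr (by omega))
  have hsum : (p - 1) * (p ^ t) ^ n ≤ Pat * (p ^ t) ^ n := by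
    have h1 : (∑ _v : Fin n → Fin t → ZMod p, (p - 1)) = (p ^ t) ^ n * (p - 1) := by
      simp [ZMod.card]
    calc (p - 1) * (p ^ t) ^ n = ∑ _v : Fin n → Fin t → ZMod p, (p - 1) := by
          rw [h1, mul_comm]
      _ ≤ ∑ v : Fin n → Fin t → ZMod p, ∑ c ∈ Finset.range K, ∑ T : Finset (Fin n),
            ∑ e : Fin n → Fin (c + 1) × Fin (c + 1),
            (if T.card = t * c then (Sol c T e v).card else 0) :=
          Finset.sum_le_sum (fun v _ => htot v)
      _ = ∑ c ∈ Finset.range K, ∑ T : Finset (Fin n), ∑ e : Fin n → Fin (c + 1) × Fin (c + 1),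
            ∑ v : Fin n → Fin t → ZMod p,
            (if T.card = t * c then (Sol c T e v).card else 0) := by
          rw [Finset.sum_comm]
          refine Finset.sum_congr rfl (fun c _ => ?_)
          rw [Finset.sum_comm]
          refine Finset.sum_congr rfl (fun T _ => ?_)
          rw [Finset.sum_comm]
      _ ≤ ∑ c ∈ Finset.range K, ∑ T : Finset (Fin n), ∑ e : Fin n → Fin (c + 1) × Fin (c + 1),
            (p ^ t) ^ n := by
          refine Finset.sum_le_sum (fun c _ => Finset.sum_le_sum (fun T _ =>
            Finset.sum_le_sum (fun e _ => ?_)))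
          by_cases hT : T.card = t * c
          · simp only [hT, if_true]
            exact sum_card_Sol c T e hT
          · simp [hT]
      _ = Pat * (p ^ t) ^ n := by
          simp only [Pat, Finset.sum_mul, one_mul]
  have h2 := Nat.le_of_mul_le_mul_right hsum hpos
  omega

end Pool.Agent.Lib.MP_96bab1_co
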