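import Pool.Agent.Lib.MP_96bab1_co.Core

/-!
The canonical tracer, its histories, and repeated separating codes.
-/

namespace Pool.Agent.Lib.MP_96bab1_co

open Finset

variable {q ℓ : ℕ}

/-- If no history with an unidentified traitor exists then the code is sequential `k`-IPP. -/
theorem isSeqIPP_of_history {k : ℕ} (C : Finset (Word q ℓ))
    (H : ∀ (d : Word q ℓ) (U : ℕ → Finset (Word q ℓ)) (F : ℕ → Finset (Finset (Word q ℓ)))
      (X : Finset (Word q ℓ)),
      (∀ Z ∈ F 0, Z ⊆ C ∧ Z.card ≤ k) → (∀ i < ℓ, F (i + 1) ⊆ F i) →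
      (∀ (i : Fin ℓ), ∀ Z ∈ F ((i : ℕ) + 1), ∃ x ∈ Z \ U i, x i = d i) →
      (∀ i ≤ ℓ, ∀ x, x ∈ U i ↔ ∀ Z ∈ F i, x ∈ Z) →
      X ∈ F ℓ → X ≠ U ℓ → False) :
    IsSeqIPP k C := by
  classical
  refine ⟨fun w _ => (stC C k w).2.1, ?_⟩
  intro X hXC hXk w U hr
  obtain ⟨h1, h2, _⟩ := reach_canon C k X hXC hXk w U hr
  refine ⟨?_, ?_⟩
  · rw [h1]
    intro x hx
    exact (idf_spec C k w x hx).2 X h2
  · intro hw
    by_contra hne
    apply H (fun i => w[(i : ℕ)]'(by omega)) (fun i => (stC C k (w.take i)).2.1)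
      (fun i => (stC C k (w.take i)).2.2) X
    · intro Z hZ
      simp only [List.take_zero, stC, List.foldl_nil, Finset.mem_filter,
        Finset.mem_powerset] at hZ
      exact hZ
    · intro i hi Z hZ
      rw [List.take_add_one, List.getElem?_eq_getElem (by omega)] at hZ
      simp only [Option.toList_some] at hZ
      exact ((mem_fam_append C k _ _ Z).mp hZ).1
    · intro i Z hZ
      rw [List.take_add_one, List.getElem?_eq_getElem (by omega)] at hZ
      simp only [Option.toList_some] at hZ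
      obtain ⟨_, x, hx, h3, h4⟩ := (mem_fam_append C k _ _ Z).mp hZ
      refine ⟨x, hx, ?_⟩
      rw [← h4]
      congr 1
      apply Fin.ext
      simp
      omega
    · intro i hi x
      constructor
      · intro hx
        exact (idf_spec C k _ x hx).2
      · intro hx
        rcases Nat.eq_zero_or_pos i with h0 | h0
        · subst h0
          have := hx ∅ (by simp [stC])
          simp at this
        · obtain ⟨j, rfl⟩ : ∃ j, i = j + 1 := ⟨i - 1, by omega⟩
          rw [List.take_add_one, List.getElem?_eq_getElem (by omega)] at hx ⊢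
          simp only [Option.toList_some] at hx ⊢
          rw [mem_idf_append]
          refine ⟨?_, hx⟩
          have h5 := fam_take C k w X h2 (j + 1)
          rw [List.take_add_one, List.getElem?_eq_getElem (by omega)] at h5
          exact hXC (hx X h5)
    · rw [List.take_of_length_le (by omega)]
      exact h2
    · rw [List.take_of_length_le (by omega), ← h1]
      exact fun h => hne h.symm

/-- Injectivity of the repetition construction. -/
lemma repeat_injective {k m n : ℕ} (hk : 1 ≤ k) (hm : 1 ≤ m) (hℓ : k * m ≤ ℓ)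
    (f : Fin n → Fin m → Fin q)
    (hf : ∀ Y : Finset (Finset (Fin n)), Y.Nonempty → Y.card ≤ k + 1 → (∀ X ∈ Y, X.card ≤ k) →
      (∀ x, ∃ X ∈ Y, x ∉ X) → ∃ i : Fin m, ∀ a : Fin q, ∃ X ∈ Y, ∀ x ∈ X, f x i ≠ a) :
    Function.Injective (fun x : Fin n => (fun i : Fin ℓ =>
      f x ⟨(i : ℕ) % m, Nat.mod_lt _ hm⟩ : Word q ℓ)) := by
  classical
  intro x y hxy
  by_contra hne
  obtain ⟨i, hi⟩ := hf {{x}, {y}} (by simp) (by
      have := Finset.card_le_two (a := ({x} : Finset (Fin n))) (b := {y})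
      omega) (by
      intro X hX
      simp only [Finset.mem_insert, Finset.mem_singleton] at hX
      rcases hX with rfl | rfl <;> simp <;> omega) (by
      intro z
      by_cases hz : z = x
      · refine ⟨{y}, by simp, ?_⟩
        rw [Finset.mem_singleton, hz]; exact hne
      · exact ⟨{x}, by simp, by rw [Finset.mem_singleton]; exact hz⟩)
  obtain ⟨X', hX', hX'2⟩ := hi (f x i)
  have hiℓ : (i : ℕ) < ℓ := by
    have : m ≤ k * m := Nat.le_mul_of_pos_left _ hk
    omega
  have h1 : f x i = f y i := by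
    have h2 := congrFun hxy ⟨i, hiℓ⟩
    have h3 : (⟨(i : ℕ) % m, Nat.mod_lt _ hm⟩ : Fin m) = i := by
      apply Fin.ext
      simp [Nat.mod_eq_of_lt i.isLt]
    simp only [h3] at h2
    exact h2
  simp only [Finset.mem_insert, Finset.mem_singleton] at hX'
  rcases hX' with rfl | rfl
  · exact hX'2 x (by simp) rfl
  · exact hX'2 y (by simp) h1.symm

/-- The repetition construction: if `f` separates all small families of small sets with empty
intersection, then its `k`-fold repetition is a sequential `k`-IPP code. -/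
theorem isSeqIPP_repeat {k m n : ℕ} (hm : 1 ≤ m) (hℓ : k * m ≤ ℓ)
    (f : Fin n → Fin m → Fin q)
    (hf : ∀ Y : Finset (Finset (Fin n)), Y.Nonempty → Y.card ≤ k + 1 → (∀ X ∈ Y, X.card ≤ k) →
      (∀ x, ∃ X ∈ Y, x ∉ X) → ∃ i : Fin m, ∀ a : Fin q, ∃ X ∈ Y, ∀ x ∈ X, f x i ≠ a) :
    IsSeqIPP k (Finset.univ.image (fun x : Fin n => (fun i : Fin ℓ =>
      f x ⟨(i : ℕ) % m, Nat.mod_lt _ hm⟩ : Word q ℓ))) := by
  classical
  set enc : Fin n → Word q ℓ := fun x i => f x ⟨(i : ℕ) % m, Nat.mod_lt _ hm⟩ with henc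
  apply isSeqIPP_of_history
  intro d U F X h0 hmono hS hU hX hXU
  have hF : ∀ i j, i ≤ j → j ≤ ℓ → F j ⊆ F i := by
    intro i j hij
    induction j, hij using Nat.le_induction with
    | base => intro _; exact Finset.Subset.refl _
    | succ j hij ih =>
      intro hj
      exact (hmono j (by omega)).trans (ih (by omega))
  have hUmono : ∀ i j, i ≤ j → j ≤ ℓ → U i ⊆ U j := by
    intro i j hij hj x hx
    rw [hU j hj]
    intro Z hZ
    exact (hU i (by omega) x).mp hx Z (hF i j hij hj hZ)
  have hFC : ∀ i ≤ ℓ, ∀ Z ∈ F i, Z ⊆ Finset.univ.image enc ∧ Z.card ≤ k := by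
    intro i hi Z hZ
    exact h0 Z (hF 0 i (Nat.zero_le _) hi hZ)
  have hUX : U ℓ ⊆ X := by
    intro x hx
    exact (hU ℓ le_rfl x).mp hx X hX
  have hUlt : (U ℓ).card < X.card := by
    apply Finset.card_lt_card
    rw [Finset.ssubset_iff_subset_ne]
    exact ⟨hUX, fun h => hXU h.symm⟩
  have hXk := (hFC ℓ le_rfl X hX).2
  -- a block without identification
  have hblock : ∃ b < k, U (b * m) = U ((b + 1) * m) := by
    by_contra hcon
    push Not at hcon
    have h1 : ∀ b ≤ k, b ≤ (U (b * m)).card := by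
      intro b
      induction b with
      | zero => intro _; exact Nat.zero_le _
      | succ b ih =>
        intro hb
        have h2 := ih (by omega)
        have hle : (b + 1) * m ≤ ℓ := (Nat.mul_le_mul_right m hb).trans hℓ
        have h3 : (U (b * m)).card < (U ((b + 1) * m)).card := by
          apply Finset.card_lt_card
          rw [Finset.ssubset_iff_subset_ne]
          exact ⟨hUmono _ _ (Nat.mul_le_mul_right m (by omega)) hle, hcon b (by omega)⟩
        omega
    have h2 := h1 k le_rfl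
    have h3 := Finset.card_le_card (hUmono (k * m) ℓ hℓ le_rfl)
    omega
  obtain ⟨b, hb, hUb⟩ := hblock
  have hbm : (b + 1) * m ≤ ℓ := (Nat.mul_le_mul_right m hb).trans hℓ
  have hbm' : (b + 1) * m = b * m + m := by ring
  set V := U (b * m) with hV
  have hUi : ∀ i, b * m ≤ i → i ≤ (b + 1) * m → U i = V := by
    intro i h1 h2
    apply Finset.Subset.antisymm
    · rw [hUb]; exact hUmono _ _ h2 hbm
    · exact hUmono _ _ h1 (by omega)
  -- the family
  have hXF : X ∈ F ((b + 1) * m) := hF _ _ hbm le_rfl hX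
  have hsep : ∀ x : Fin n, ∃ Z ∈ F ((b + 1) * m), enc x ∉ Z \ V := by
    intro x
    by_contra hcon
    push Not at hcon
    have h1 : enc x ∈ U ((b + 1) * m) := by
      rw [hU _ hbm]
      intro Z hZ
      exact (Finset.mem_sdiff.mp (hcon Z hZ)).1
    have h2 := (Finset.mem_sdiff.mp (hcon X hXF)).2
    rw [hUb] at h2
    exact h2 h1
  choose Zx hZxF hZx using hsep
  let pull : Finset (Word q ℓ) → Finset (Fin n) := fun Z =>
    Finset.univ.filter (fun x => enc x ∈ Z \ V)
  have hinj : Function.Injective enc := repeat_injective (by omega) hm hℓ f hf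
  have hpullcard : ∀ Z ∈ F ((b + 1) * m), (pull Z).card ≤ k := by
    intro Z hZ
    have h1 : (pull Z).card ≤ Z.card := by
      apply Finset.card_le_card_of_injOn enc
      · intro x hx
        simp only [pull, Finset.coe_filter, Finset.mem_univ, true_and, Set.mem_ofPred_eq] at hx
        exact (Finset.mem_sdiff.mp hx).1
      · intro x _ y _ h
        exact hinj h
    exact h1.trans (hFC _ hbm Z hZ).2
  let Y : Finset (Finset (Fin n)) := insert (pull X) ((pull X).image (fun x => pull (Zx x)))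
  have hY1 : Y.card ≤ k + 1 := by
    have h1 : Y.card ≤ ((pull X).image (fun x => pull (Zx x))).card + 1 :=
      Finset.card_insert_le _ _
    have h2 : ((pull X).image (fun x => pull (Zx x))).card ≤ (pull X).card :=
      Finset.card_image_le
    have h3 := hpullcard X hXF
    omega
  have hY2 : ∀ X' ∈ Y, X'.card ≤ k := by
    intro X' hX'
    simp only [Y, Finset.mem_insert, Finset.mem_image] at hX'
    rcases hX' with rfl | ⟨x, _, rfl⟩
    · exact hpullcard X hXF
    · exact hpullcard _ (hZxF x)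
  have hY3 : ∀ x, ∃ X' ∈ Y, x ∉ X' := by
    intro x
    by_cases hx : x ∈ pull X
    · refine ⟨pull (Zx x), ?_, ?_⟩
      · simp only [Y, Finset.mem_insert, Finset.mem_image]
        exact Or.inr ⟨x, hx, rfl⟩
      · simp only [pull, Finset.mem_filter, Finset.mem_univ, true_and]
        exact hZx x
    · exact ⟨pull X, by simp [Y], hx⟩
  obtain ⟨i, hi⟩ := hf Y ⟨pull X, by simp [Y]⟩ hY1 hY2 hY3
  -- contradiction at the coordinate `b m + i`
  have hiℓ : b * m + (i : ℕ) < ℓ := by
    have := i.isLt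
    omega
  obtain ⟨X', hX', hX'2⟩ := hi (d ⟨b * m + i, hiℓ⟩)
  have hgen : ∀ Z ∈ F ((b + 1) * m), ∃ x ∈ pull Z, f x i = d ⟨b * m + i, hiℓ⟩ := by
    intro Z hZ
    have hlt := i.isLt
    have hZ' : Z ∈ F (((⟨b * m + i, hiℓ⟩ : Fin ℓ) : ℕ) + 1) := hF _ _ (by simp; omega) hbm hZ
    obtain ⟨y, hy, hyd⟩ := hS ⟨b * m + i, hiℓ⟩ Z hZ'
    have hUeq : U ((⟨b * m + i, hiℓ⟩ : Fin ℓ) : ℕ) = V := hUi _ (by simp) (by simp; omega)
    rw [hUeq] at hy
    have hyC := (hFC _ hbm Z hZ).1 (Finset.mem_sdiff.mp hy).1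
    rw [Finset.mem_image] at hyC
    obtain ⟨x, _, rfl⟩ := hyC
    refine ⟨x, ?_, ?_⟩
    · simp only [pull, Finset.mem_filter, Finset.mem_univ, true_and]
      exact hy
    · rw [← hyd]
      simp only [henc]
      congr 1
      apply Fin.ext
      simp [Nat.mod_eq_of_lt hlt]
  simp only [Y, Finset.mem_insert, Finset.mem_image] at hX'
  rcases hX' with rfl | ⟨x, _, rfl⟩
  · obtain ⟨x, hx, hxa⟩ := hgen X hXF
    exact hX'2 x hx hxa
  · obtain ⟨y, hy, hya⟩ := hgen (Zx x) (hZxF x)
    exact hX'2 y hy hya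

end Pool.Agent.Lib.MP_96bab1_co
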