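import Pool.Agent.Lib.MP_96bab1_co.Core
import Pool.Agent.Lib.MP_96bab1_co.Generic

/-!
Random linear codes over a prime field: sequential `k`-IPP codes for a fixed alphabet.
-/

namespace Pool.Agent.Lib.MP_96bab1_co

open Finset

/-- The number of edges plus one is at most `2 ^ c`. -/
lemma card_edges_le (c : ℕ) :
    Fintype.card (Option {e : Fin (c + 1) × Fin (c + 1) // e.1 < e.2}) ≤ 2 ^ c := by
  classical
  have h1 : Fintype.card {e : Fin (c + 1) × Fin (c + 1) // e.1 < e.2} ≤ (c + 1).choose 2 := by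
    have h2 := Sym2.card_subtype_not_diag (α := Fin (c + 1))
    rw [Fintype.card_fin] at h2
    rw [← h2]
    apply Fintype.card_le_of_injective
      (fun e => (⟨s(e.1.1, e.1.2), by
        rw [Sym2.mk_isDiag_iff]; exact ne_of_lt e.2⟩ : {a : Sym2 (Fin (c + 1)) // ¬a.IsDiag}))
    intro e e' h
    simp only [Subtype.mk.injEq, Sym2.eq_iff] at h
    rcases h with ⟨h3, h4⟩ | ⟨h3, h4⟩
    · exact Subtype.ext (Prod.ext h3 h4)
    · exfalso
      have := e.2
      have := e'.2
      rw [h3, h4] at *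
      exact absurd ‹e'.1.2 < e'.1.1› (not_lt.mpr (le_of_lt ‹e'.1.1 < e'.1.2›))
  rw [Fintype.card_option]
  have h3 : ∀ c : ℕ, (c + 1).choose 2 + 1 ≤ 2 ^ c := by
    intro c
    induction c with
    | zero => simp
    | succ c ih =>
      have h4 : (c + 1 + 1).choose 2 = (c + 1) + (c + 1).choose 2 := by
        rw [Nat.choose_succ_succ' (c + 1) 1, Nat.choose_one_right]
      have h5 : c + 1 ≤ 2 ^ c := Nat.lt_two_pow_self
      rw [h4, pow_succ]
      omega
  have := h3 c
  omega

/-- Existence of good vectors for a fixed prime, by the union bound. -/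
theorem exists_vectors (p : ℕ) [Fact p.Prime] (t n τ k : ℕ) (hk : 1 ≤ k)
    (h : 2 * k * (2 ^ n * p ^ t) ≤ p ^ τ) :
    ∃ v : Fin n → Fin t → ZMod p,
    ∀ M : Finset (Fin t → ZMod p), 2 ≤ M.card → M.card ≤ 2 * k → ∀ T : Finset (Fin n),
      (∀ i ∈ T, ∃ x ∈ M, ∃ y ∈ M, x ≠ y ∧ ∑ s, (x s - y s) * v i s = 0) →
      T.card ≤ τ * (M.card - 1) := by
  classical
  have hp : 0 < p := (Fact.out : p.Prime).pos
  have hp1 : 1 < p := (Fact.out : p.Prime).one_lt
  -- patterns
  let E : ℕ → Type := fun c => {e : Fin (c + 1) × Fin (c + 1) // e.1 < e.2}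
  let ed : (c : ℕ) → (Fin n → Option (E c)) → Fin n → Fin (c + 1) × Fin (c + 1) :=
    fun c g i => match g i with
      | none => (0, 0)
      | some ε => ε.1
  let su : (c : ℕ) → (Fin n → Option (E c)) → Finset (Fin n) :=
    fun c g => Finset.univ.filter (fun i => g i ≠ none)
  let P : ℕ := (p ^ t) ^ n
  have hP : 0 < P := pow_pos (pow_pos hp _) _
  let A : ℕ → ℕ := fun c => ∑ g : Fin n → Option (E c), ∑ v : Fin n → Fin t → ZMod p,
    if (su c g).card = τ * c + 1 then (Sol c (su c g) (ed c g) v).card else 0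
  have hA : ∀ c ∈ Finset.Icc 1 (2 * k - 1), 2 * k * p * A c ≤ P := by
    intro c hc
    rw [Finset.mem_Icc] at hc
    have h1 : A c * p ^ (τ * c + 1) ≤ 2 ^ (n * c) * ((p ^ t) ^ c * P) := by
      have h2 : A c * p ^ (τ * c + 1) ≤ ∑ _g : Fin n → Option (E c), (p ^ t) ^ c * P := by
        rw [Finset.sum_mul]
        apply Finset.sum_le_sum
        intro g _
        by_cases hg : (su c g).card = τ * c + 1
        · simp only [hg, if_true]
          have := sum_card_Sol_mul (p := p) (t := t) c (su c g) (ed c g)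
          rw [hg] at this
          exact this
        · simp only [hg, if_false, Finset.sum_const_zero, zero_mul]
          exact Nat.zero_le _
      refine h2.trans ?_
      rw [Finset.sum_const, smul_eq_mul]
      apply Nat.mul_le_mul_right
      rw [Finset.card_univ, Fintype.card_fun, Fintype.card_fin, mul_comm n c, pow_mul]
      exact Nat.pow_le_pow_left (card_edges_le c) n
    have h3 : (2 * k) ^ c * (2 ^ (n * c) * (p ^ t) ^ c) ≤ p ^ (τ * c) := by
      have h9 := Nat.pow_le_pow_left h c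
      calc (2 * k) ^ c * (2 ^ (n * c) * (p ^ t) ^ c) = (2 * k * (2 ^ n * p ^ t)) ^ c := by
            rw [mul_pow (2 * k), mul_pow (2 ^ n), ← pow_mul 2]
        _ ≤ (p ^ τ) ^ c := h9
        _ = p ^ (τ * c) := by rw [← pow_mul]
    have h4 : 2 * k * p * A c * p ^ (τ * c) ≤ P * p ^ (τ * c) := by
      have h5 : 2 * k ≤ (2 * k) ^ c := by
        calc 2 * k = (2 * k) ^ 1 := (pow_one _).symm
          _ ≤ (2 * k) ^ c := Nat.pow_le_pow_right (by omega) hc.1
      calc 2 * k * p * A c * p ^ (τ * c) = 2 * k * (A c * p ^ (τ * c + 1)) := by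
            rw [pow_succ]; ring
        _ ≤ (2 * k) ^ c * (2 ^ (n * c) * ((p ^ t) ^ c * P)) := Nat.mul_le_mul h5 h1
        _ = ((2 * k) ^ c * (2 ^ (n * c) * (p ^ t) ^ c)) * P := by ring
        _ ≤ p ^ (τ * c) * P := Nat.mul_le_mul_right _ h3
        _ = P * p ^ (τ * c) := mul_comm _ _
    exact Nat.le_of_mul_le_mul_right h4 (pow_pos hp _)
  have hsum : ∑ c ∈ Finset.Icc 1 (2 * k - 1), A c < P := by
    have h1 : 2 * k * p * ∑ c ∈ Finset.Icc 1 (2 * k - 1), A c ≤ (2 * k - 1) * P := by
      rw [Finset.mul_sum]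
      have h2 := Finset.sum_le_card_nsmul _ _ _ hA
      simpa using h2
    have h2 : (2 * k - 1) * P < 2 * k * P := Nat.mul_lt_mul_of_pos_right (by omega) hP
    have h3 : 2 * k * P ≤ 2 * k * p * P := by
      apply Nat.mul_le_mul_right
      exact Nat.le_mul_of_pos_right _ hp
    have h4 : 2 * k * p * ∑ c ∈ Finset.Icc 1 (2 * k - 1), A c < 2 * k * p * P := by omega
    exact Nat.lt_of_mul_lt_mul_left h4
  -- a good choice of vectors
  have hgood : ∃ v : Fin n → Fin t → ZMod p, ∀ c ∈ Finset.Icc 1 (2 * k - 1),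
      ∀ g : Fin n → Option (E c), (su c g).card = τ * c + 1 → Sol c (su c g) (ed c g) v = ∅ := by
    by_contra hcon
    push Not at hcon
    have h1 : ∀ v : Fin n → Fin t → ZMod p, 1 ≤ ∑ c ∈ Finset.Icc 1 (2 * k - 1),
        ∑ g : Fin n → Option (E c),
        if (su c g).card = τ * c + 1 then (Sol c (su c g) (ed c g) v).card else 0 := by
      intro v
      obtain ⟨c, hc, g, hg, hne⟩ := hcon v
      have h2 : 1 ≤ (Sol c (su c g) (ed c g) v).card := by
        rw [Nat.one_le_iff_ne_zero, ← Nat.pos_iff_ne_zero, Finset.card_pos]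
        exact hne
      calc 1 ≤ (if (su c g).card = τ * c + 1 then (Sol c (su c g) (ed c g) v).card else 0) := by
            simp only [hg, if_true]; exact h2
        _ ≤ ∑ g : Fin n → Option (E c),
            (if (su c g).card = τ * c + 1 then (Sol c (su c g) (ed c g) v).card else 0) :=
            Finset.single_le_sum (f := fun g => if (su c g).card = τ * c + 1 then
              (Sol c (su c g) (ed c g) v).card else 0) (fun _ _ => Nat.zero_le _)
              (Finset.mem_univ g)
        _ ≤ _ := Finset.single_le_sum (f := fun c => ∑ g : Fin n → Option (E c),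
            (if (su c g).card = τ * c + 1 then (Sol c (su c g) (ed c g) v).card else 0))
            (fun _ _ => Nat.zero_le _) hc
    have h2 : P ≤ ∑ c ∈ Finset.Icc 1 (2 * k - 1), A c := by
      calc P = ∑ _v : Fin n → Fin t → ZMod p, 1 := by simp [P, ZMod.card]
        _ ≤ ∑ v : Fin n → Fin t → ZMod p, ∑ c ∈ Finset.Icc 1 (2 * k - 1),
            ∑ g : Fin n → Option (E c),
            (if (su c g).card = τ * c + 1 then (Sol c (su c g) (ed c g) v).card else 0) :=
            Finset.sum_le_sum (fun v _ => h1 v)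
        _ = ∑ c ∈ Finset.Icc 1 (2 * k - 1), A c := by
            rw [Finset.sum_comm]
            refine Finset.sum_congr rfl (fun c _ => ?_)
            rw [Finset.sum_comm]
    omega
  obtain ⟨v, hv⟩ := hgood
  refine ⟨v, ?_⟩
  intro M hM2 hMk T hT
  by_contra hcon
  push Not at hcon
  obtain ⟨c, hc⟩ : ∃ c, M.card = c + 1 := ⟨M.card - 1, by omega⟩
  have hc1 : M.card - 1 = c := by omega
  rw [hc1] at hcon
  obtain ⟨T', hT'T, hT'c⟩ := Finset.exists_subset_card_eq (by omega : τ * c + 1 ≤ T.card)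
  let F := Finset.equivFinOfCardEq hc
  have hch : ∀ i : Fin n, ∃ o : Option (E c), (o ≠ none ↔ i ∈ T') ∧ (∀ ε, o = some ε →
      ((F.symm ε.1.1 : Fin t → ZMod p) ≠ (F.symm ε.1.2 : Fin t → ZMod p) ∧
      ∑ s, ((F.symm ε.1.1 : Fin t → ZMod p) s - (F.symm ε.1.2 : Fin t → ZMod p) s) * v i s = 0)) := by
    intro i
    by_cases hi : i ∈ T'
    · obtain ⟨x, hx, y, hy, hxy, hs⟩ := hT i (hT'T hi)
      have hne : F ⟨x, hx⟩ ≠ F ⟨y, hy⟩ := by
        intro h
        exact hxy (congrArg Subtype.val (F.injective h))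
      rcases lt_or_gt_of_ne hne with hlt | hlt
      · refine ⟨some ⟨(F ⟨x, hx⟩, F ⟨y, hy⟩), hlt⟩, by simp [hi], ?_⟩
        intro ε hε
        rw [Option.some.injEq] at hε
        subst hε
        simp only [Equiv.symm_apply_apply]
        exact ⟨hxy, hs⟩
      · refine ⟨some ⟨(F ⟨y, hy⟩, F ⟨x, hx⟩), hlt⟩, by simp [hi], ?_⟩
        intro ε hε
        rw [Option.some.injEq] at hε
        subst hε
        simp only [Equiv.symm_apply_apply]
        refine ⟨fun h => hxy h.symm, ?_⟩
        rw [← neg_eq_zero, ← Finset.sum_neg_distrib, ← hs]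
        apply Finset.sum_congr rfl
        intro s _
        ring
    · exact ⟨none, by simp [hi], by simp⟩
  choose g hg1 hg2 using hch
  have hsu : su c g = T' := by
    ext i
    simp only [su, Finset.mem_filter, Finset.mem_univ, true_and]
    exact hg1 i
  have hempty := hv c (Finset.mem_Icc.mpr ⟨by omega, by omega⟩) g (by rw [hsu, hT'c])
  have hmem : (fun j => (F.symm j : Fin t → ZMod p) - (F.symm 0 : Fin t → ZMod p)) ∈
      Sol c (su c g) (ed c g) v := by
    simp only [Sol, Finset.mem_filter, Finset.mem_univ, true_and, sub_self,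
      sub_sub_sub_cancel_right, Pi.sub_apply]
    intro i hi
    rw [hsu] at hi
    obtain ⟨ε, hε⟩ := Option.ne_none_iff_exists'.mp ((hg1 i).mpr hi)
    have h1 := hg2 i ε hε
    simp only [ed, hε]
    exact ⟨sub_ne_zero.mpr h1.1, h1.2⟩
  rw [hempty] at hmem
  exact absurd hmem (Finset.notMem_empty _)

/-- Linear codes give sequential `k`-IPP codes. -/
theorem exists_linear_code (p q : ℕ) [Fact p.Prime] (hpq : p ≤ q) (t ℓ τ k : ℕ) (hk : 1 ≤ k)
    (hℓ : τ * (k * (k + 1)) + 2 * k ≤ 2 * ℓ) (h : 2 * k * (2 ^ ℓ * p ^ t) ≤ p ^ τ) :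
    ∃ C : Finset (Word q ℓ), IsSeqIPP k C ∧ C.card = p ^ t := by
  classical
  obtain ⟨v, hv⟩ := exists_vectors p t ℓ τ k hk h
  obtain ⟨ι⟩ : Nonempty (ZMod p ↪ Fin q) := by
    apply Function.Embedding.nonempty_of_card_le
    simpa [ZMod.card] using hpq
  let enc : (Fin t → ZMod p) → Word q ℓ := fun m i => ι (∑ s, m s * v i s)
  have henc : ∀ x y : Fin t → ZMod p, ∀ i : Fin ℓ, enc x i = enc y i →
      ∑ s, (x s - y s) * v i s = 0 := by
    intro x y i h
    have h1 := ι.injective h
    simp only [sub_mul, Finset.sum_sub_distrib]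
    rw [h1, sub_self]
  have hℓτ : τ + 1 ≤ ℓ := by
    have h1 : 2 ≤ k * (k + 1) := by nlinarith
    have h2 : τ * 2 ≤ τ * (k * (k + 1)) := Nat.mul_le_mul_left _ h1
    omega
  have hpair : ∀ x y : Fin t → ZMod p, x ≠ y → ∀ T : Finset (Fin ℓ),
      (∀ i ∈ T, enc x i = enc y i) → T.card ≤ τ := by
    intro x y hxy T hT
    have hcard : ({x, y} : Finset (Fin t → ZMod p)).card = 2 := Finset.card_pair hxy
    have h1 := hv {x, y} (by omega) (by omega) T (by
      intro i hi
      exact ⟨x, by simp, y, by simp, hxy, henc x y i (hT i hi)⟩)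
    rw [hcard] at h1
    omega
  have hencinj : Function.Injective enc := by
    intro x y h
    by_contra hne
    have h1 := hpair x y hne Finset.univ (fun i _ => congrFun h i)
    simp only [Finset.card_univ, Fintype.card_fin] at h1
    omega
  refine ⟨Finset.univ.image enc, ?_, ?_⟩
  · apply isSeqIPP_of_sparse hℓ
    · intro x hx y hy hxy T hT
      rw [Finset.mem_image] at hx hy
      obtain ⟨x', _, rfl⟩ := hx
      obtain ⟨y', _, rfl⟩ := hy
      exact hpair x' y' (fun h => hxy (congrArg enc h)) T hT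
    · intro M hM hM3 hMk T hT
      obtain ⟨M0, hM0, rfl⟩ := Finset.subset_image_iff.mp hM
      rw [Finset.card_image_of_injective _ hencinj] at hM3 hMk ⊢
      have h1 := hv M0 (by omega) hMk T (by
        intro i hi
        obtain ⟨x, hx, y, hy, hxy, hE⟩ := hT i hi
        rw [Finset.mem_image] at hx hy
        obtain ⟨x', hx', rfl⟩ := hx
        obtain ⟨y', hy', rfl⟩ := hy
        exact ⟨x', hx', y', hy', fun h => hxy (congrArg enc h), henc x' y' i hE⟩)
      have h2 : (τ + 1) * (M0.card - 1) = τ * (M0.card - 1) + (M0.card - 1) := by ring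
      omega
  · rw [Finset.card_image_of_injective _ hencinj]
    simp [ZMod.card]

end Pool.Agent.Lib.MP_96bab1_co
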