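import Pool.Agent.Lib.MP_96bab1_co.Core
import Pool.Agent.Lib.MP_96bab1_co.Generic
import Pool.Agent.Lib.MP_96bab1_co.Behrend

/-!
Construction of large sequential `k`-IPP codes.
-/

namespace Pool.Agent.Lib.MP_96bab1_co

open Finset

theorem exists_code (k τ ℓ : ℕ) (hk : 1 ≤ k) (hℓ : τ * (k * (k + 1)) + 2 * k ≤ 2 * ℓ) :
    ∃ c0 : ℕ, 1 ≤ c0 ∧ ∀ D B q : ℕ, 1 ≤ B → (c0 * B) ^ D ≤ q →
      ∃ C : Finset (Word q ℓ), IsSeqIPP k C ∧
        (B ^ (τ + 1)) ^ D ≤ C.card * (D * (B ^ (τ + 1)) ^ 2 + 1) := by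
  classical
  obtain ⟨p, hp, v, hv⟩ := exists_generic (τ + 1) (ℓ + 1) (2 * k)
  have : Fact p.Prime := ⟨hp⟩
  refine ⟨(τ + 1) * p, Nat.mul_pos (by omega) hp.pos, ?_⟩
  intro D B q hB hq
  set b := (τ + 1) * p * B with hb
  -- integer lift of the vectors
  let a : Fin (ℓ + 1) → Fin (τ + 1) → ℤ := fun i s => ((v i s).val : ℤ)
  have ha : ∀ i s, ((a i s : ℤ) : ZMod p) = v i s := by
    intro i s
    simp [a]
  -- symbols
  let sym : (Fin D → Fin (τ + 1) → Fin B) → Fin ℓ → Fin D → ℕ := fun m i δ =>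
    ∑ s, (m δ s : ℕ) * (v i.castSucc s).val
  have hsym : ∀ m i δ, sym m i δ < b := by
    intro m i δ
    have h1 : sym m i δ ≤ ∑ _s : Fin (τ + 1), (p * B - 1) := by
      apply Finset.sum_le_sum
      intro s _
      have h2 : (m δ s : ℕ) < B := (m δ s).isLt
      have h3 : (v i.castSucc s).val < p := ZMod.val_lt _
      have h4 : (m δ s : ℕ) * (v i.castSucc s).val < B * p :=
        Nat.mul_lt_mul'' h2 h3
      rw [mul_comm p B]
      omega
    simp only [Finset.sum_const, Finset.card_univ, Fintype.card_fin, smul_eq_mul] at h1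
    have h5 : 0 < p * B := Nat.mul_pos hp.pos hB
    have h6 : (τ + 1) * (p * B - 1) < (τ + 1) * (p * B) :=
      Nat.mul_lt_mul_of_pos_left (by omega) (by omega)
    rw [hb, mul_assoc]
    omega
  obtain ⟨ι⟩ : Nonempty ((Fin D → Fin b) ↪ Fin q) := by
    apply Function.Embedding.nonempty_of_card_le
    simpa using hq
  let enc : (Fin D → Fin (τ + 1) → Fin B) → Word q ℓ := fun m i =>
    ι (fun δ => ⟨sym m i δ, hsym m i δ⟩)
  let lift : (Fin D → Fin (τ + 1) → Fin B) → (Fin D → Fin (τ + 1) → ℤ) := fun m δ s => (m δ s : ℕ)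
  have hlift : Function.Injective lift := by
    intro x y h
    funext δ s
    have := congrFun (congrFun h δ) s
    simp only [lift, Nat.cast_inj] at this
    exact Fin.ext this
  have henc : ∀ x y : Fin D → Fin (τ + 1) → Fin B, ∀ i : Fin ℓ, enc x i = enc y i →
      ∀ δ, ∑ s, (lift x δ s - lift y δ s) * a i.castSucc s = 0 := by
    intro x y i h δ
    have h1 := ι.injective h
    have h2 := congrFun h1 δ
    simp only [Fin.mk.injEq, sym] at h2
    have h3 : ((∑ s, (x δ s : ℕ) * (v i.castSucc s).val : ℕ) : ℤ) =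
        ((∑ s, (y δ s : ℕ) * (v i.castSucc s).val : ℕ) : ℤ) := by rw [h2]
    push_cast at h3
    simp only [sub_mul, Finset.sum_sub_distrib, lift, a]
    rw [h3, sub_self]
  -- the norm
  let nrm : (Fin D → Fin (τ + 1) → Fin B) → ℕ := fun m =>
    ∑ δ, (finFunctionFinEquiv (m δ) : ℕ) ^ 2
  have hnrm : ∀ m, nrm m < D * (B ^ (τ + 1)) ^ 2 + 1 := by
    intro m
    have : nrm m ≤ ∑ _δ : Fin D, (B ^ (τ + 1)) ^ 2 := by
      apply Finset.sum_le_sum
      intro δ _
      exact Nat.pow_le_pow_left (finFunctionFinEquiv (m δ)).isLt.le 2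
    simp only [Finset.sum_const, Finset.card_univ, Fintype.card_fin, smul_eq_mul] at this
    omega
  obtain ⟨R, _, hRmax⟩ := Finset.exists_max_image (Finset.range (D * (B ^ (τ + 1)) ^ 2 + 1))
    (fun R => (Finset.univ.filter (fun m => nrm m = R)).card) ⟨0, by simp⟩
  let 𝓕 : Finset (Fin D → Fin (τ + 1) → Fin B) := Finset.univ.filter (fun m => nrm m = R)
  have hF : (B ^ (τ + 1)) ^ D ≤ 𝓕.card * (D * (B ^ (τ + 1)) ^ 2 + 1) := by
    have h1 := Finset.card_le_mul_card_image_of_maps_to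
      (s := (Finset.univ : Finset (Fin D → Fin (τ + 1) → Fin B)))
      (t := Finset.range (D * (B ^ (τ + 1)) ^ 2 + 1)) (f := nrm)
      (fun m _ => Finset.mem_range.mpr (hnrm m)) 𝓕.card (fun b hb => hRmax b hb)
    simpa using h1
  have hℓτ : τ + 1 ≤ ℓ := by
    have h1 : 2 ≤ k * (k + 1) := by nlinarith
    have h2 : τ * 2 ≤ τ * (k * (k + 1)) := Nat.mul_le_mul_left _ h1
    omega
  -- pairs
  have hpair : ∀ x y : Fin D → Fin (τ + 1) → Fin B, x ≠ y → ∀ T : Finset (Fin ℓ),
      (∀ i ∈ T, enc x i = enc y i) → T.card ≤ τ := by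
    intro x y hxy T hT
    have hne : lift x ≠ lift y := fun h => hxy (hlift h)
    have hcard : ({lift x, lift y} : Finset (Fin D → Fin (τ + 1) → ℤ)).card = 2 :=
      Finset.card_pair hne
    have h1 := descent (K := 2 * k) v hv a ha _ {lift x, lift y} rfl (by omega) (by omega)
      (T.map Fin.castSuccEmb) (by
        intro i hi
        rw [Finset.mem_map] at hi
        obtain ⟨j, hj, rfl⟩ := hi
        exact ⟨lift x, by simp, lift y, by simp, hne, henc x y j (hT j hj)⟩)
    rw [hcard, Finset.card_map] at h1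
    omega
  have hencinj : Function.Injective enc := by
    intro x y h
    by_contra hne
    have h1 := hpair x y hne Finset.univ (fun i _ => congrFun h i)
    simp only [Finset.card_univ, Fintype.card_fin] at h1
    omega
  refine ⟨𝓕.image enc, ?_, by rwa [Finset.card_image_of_injective _ hencinj]⟩
  apply isSeqIPP_of_sparse hℓ
  · intro x hx y hy hxy T hT
    rw [Finset.mem_image] at hx hy
    obtain ⟨x', _, rfl⟩ := hx
    obtain ⟨y', _, rfl⟩ := hy
    exact hpair x' y' (fun h => hxy (congrArg enc h)) T hT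
  · intro M hM hM3 hMk T hT
    obtain ⟨M0, hM0, rfl⟩ := Finset.subset_image_iff.mp hM
    rw [Finset.card_image_of_injective _ hencinj] at hM3 hMk ⊢
    have hcard : (M0.image lift).card = M0.card := Finset.card_image_of_injective _ hlift
    have hpow : ∀ (x : Fin D → Fin (τ + 1) → Fin B) (δ : Fin D),
        ∑ s, lift x δ s * ((B : ℤ) ^ (s : ℕ)) = ((finFunctionFinEquiv (x δ) : ℕ) : ℤ) := by
      intro x δ
      rw [finFunctionFinEquiv_apply]
      push_cast
      rfl
    have h1 := sphere_bound (K := 2 * k) v hv a ha (fun s => (B : ℤ) ^ (s : ℕ)) (R : ℤ)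
      (M0.image lift) (by omega) (by omega) ?_ ?_ (T.map Fin.castSuccEmb) ?_ ?_
    · rw [hcard, Finset.card_map] at h1
      exact h1
    · intro x hx y hy δ h
      rw [Finset.mem_image] at hx hy
      obtain ⟨x', _, rfl⟩ := hx
      obtain ⟨y', _, rfl⟩ := hy
      rw [hpow, hpow, Nat.cast_inj] at h
      have h2 := finFunctionFinEquiv.injective (Fin.ext h)
      funext s
      simp only [lift, h2]
    · intro x hx
      rw [Finset.mem_image] at hx
      obtain ⟨x', hx', rfl⟩ := hx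
      have h2 : nrm x' = R := (Finset.mem_filter.mp (hM0 hx')).2
      simp only [hpow]
      rw [← h2]
      simp [nrm]
    · rw [Finset.mem_map]
      rintro ⟨j, _, hj⟩
      exact (Fin.castSucc_lt_last j).ne hj
    · intro i hi
      rw [Finset.mem_map] at hi
      obtain ⟨j, hj, rfl⟩ := hi
      obtain ⟨x, hx, y, hy, hxy, hE⟩ := hT j hj
      rw [Finset.mem_image] at hx hy
      obtain ⟨x', hx', rfl⟩ := hx
      obtain ⟨y', hy', rfl⟩ := hy
      exact ⟨lift x', Finset.mem_image_of_mem _ hx', lift y', Finset.mem_image_of_mem _ hy',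
        fun h => hxy (congrArg enc (hlift h)), henc x' y' j hE⟩

end Pool.Agent.Lib.MP_96bab1_co
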