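import Pool.Agent.Lib.MP_96bab1_co.Defs

/-!
Basic facts on `maxSize` and `rate`.
-/

namespace Pool.Agent.Lib.MP_96bab1_co

open Filter Topology

lemma isSeqIPP_empty (q ℓ k : ℕ) : IsSeqIPP k (∅ : Finset (Word q ℓ)) := by
  refine ⟨fun _ _ => ∅, ?_⟩
  intro X hX _ w U h
  have hX0 : X = ∅ := Finset.subset_empty.mp hX
  subst hX0
  have : U = ∅ := by
    induction h with
    | start => rfl
    | round w U i x _ _ hx _ => simp at hx
  exact ⟨by rw [this], fun _ => this⟩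

lemma le_maxSize {q ℓ k : ℕ} (C : Finset (Word q ℓ)) (hC : IsSeqIPP k C) :
    C.card ≤ maxSize q ℓ k := by
  apply le_csSup
  · refine ⟨Fintype.card (Word q ℓ), ?_⟩
    rintro n ⟨C', rfl, _⟩
    exact Finset.card_le_univ C'
  · exact ⟨C, rfl, hC⟩

lemma maxSize_le {q ℓ k m : ℕ} (h : ∀ C : Finset (Word q ℓ), IsSeqIPP k C → C.card ≤ m) :
    maxSize q ℓ k ≤ m := by
  apply csSup_le
  · exact ⟨0, ∅, rfl, isSeqIPP_empty q ℓ k⟩
  · rintro n ⟨C, rfl, hC⟩
    exact h C hC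

lemma maxSize_le_pow (q ℓ k : ℕ) : maxSize q ℓ k ≤ q ^ ℓ := by
  apply maxSize_le
  intro C _
  simpa using Finset.card_le_univ C

lemma rate_nonneg (q ℓ k : ℕ) : 0 ≤ rate q ℓ k := by
  unfold rate
  rcases Nat.eq_zero_or_pos (maxSize q ℓ k) with h0 | h0
  · simp [h0]
  · rcases Nat.lt_or_ge q 2 with hq | hq
    · have : Real.log (q : ℝ) = 0 := by
        interval_cases q <;> simp
      simp [Real.logb, this]
    · apply div_nonneg _ (Nat.cast_nonneg _)
      rw [Real.logb]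
      exact div_nonneg (Real.log_natCast_nonneg _) (Real.log_natCast_nonneg _)

lemma rate_le_one (q ℓ k : ℕ) : rate q ℓ k ≤ 1 := by
  unfold rate
  rcases Nat.eq_zero_or_pos (maxSize q ℓ k) with h0 | h0
  · simp [h0]
  · rcases Nat.lt_or_ge q 2 with hq | hq
    · have : Real.log (q : ℝ) = 0 := by
        interval_cases q <;> simp
      simp [Real.logb, this]
    · have hq1 : (1 : ℝ) < q := by exact_mod_cast (by omega : 1 < q)
      have hlq : 0 < Real.log q := Real.log_pos hq1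
      apply div_le_one_of_le₀ _ (Nat.cast_nonneg _)
      rw [Real.logb, div_le_iff₀ hlq]
      have h1 : (maxSize q ℓ k : ℝ) ≤ (q : ℝ) ^ ℓ := by exact_mod_cast maxSize_le_pow q ℓ k
      calc Real.log (maxSize q ℓ k) ≤ Real.log ((q : ℝ) ^ ℓ) :=
            Real.log_le_log (by exact_mod_cast h0) h1
        _ = ℓ * Real.log q := Real.log_pow _ _

lemma bddBelow_rate (q k : ℕ) : IsBoundedUnder (· ≥ ·) atTop (fun ℓ => rate q ℓ k) :=
  isBoundedUnder_of ⟨0, fun ℓ => rate_nonneg q ℓ k⟩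

lemma bddAbove_rate (q k : ℕ) : IsBoundedUnder (· ≤ ·) atTop (fun ℓ => rate q ℓ k) :=
  isBoundedUnder_of ⟨1, fun ℓ => rate_le_one q ℓ k⟩

end Pool.Agent.Lib.MP_96bab1_co
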