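import Mathlib

/-!
Existence of separating functions (random coding), for `k + 1 ≤ q`.
-/

namespace Pool.Agent.Lib.MP_96bab1_co

open Finset

/-- The elements listed by `u`. -/
def listed {n k : ℕ} (u : Fin k → Option (Fin n)) : Finset (Fin n) :=
  Finset.univ.filter (fun x => ∃ l, u l = some x)

lemma card_listed_le {n k : ℕ} (u : Fin k → Option (Fin n)) : (listed u).card ≤ k := by
  classical
  have h1 : (listed u).image some ⊆ Finset.univ.image u := by
    intro o ho
    simp only [listed, Finset.mem_image, Finset.mem_filter, Finset.mem_univ, true_and] at ho ⊢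
    obtain ⟨x, ⟨l, hl⟩, rfl⟩ := ho
    exact ⟨l, hl⟩
  have h2 := Finset.card_le_card h1
  rw [Finset.card_image_of_injective _ (Option.some_injective _)] at h2
  have h3 : (Finset.univ.image u).card ≤ k := by
    simpa using (Finset.card_image_le (s := Finset.univ) (f := u))
  omega

lemma exists_listed {n k : ℕ} (X : Finset (Fin n)) (hX : X.card ≤ k) :
    ∃ u : Fin k → Option (Fin n), listed u = X := by
  classical
  refine ⟨fun l => if h : (l : ℕ) < X.card then some (X.equivFin.symm ⟨l, h⟩).1 else none, ?_⟩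
  ext x
  simp only [listed, Finset.mem_filter, Finset.mem_univ, true_and]
  constructor
  · rintro ⟨l, hl⟩
    by_cases h : (l : ℕ) < X.card
    · simp only [h, dif_pos, Option.some.injEq] at hl
      rw [← hl]
      exact (X.equivFin.symm ⟨l, h⟩).2
    · simp [h] at hl
  · intro hx
    refine ⟨⟨(X.equivFin ⟨x, hx⟩ : ℕ), by have := (X.equivFin ⟨x, hx⟩).isLt; omega⟩, ?_⟩
    simp

/-- Number of bad columns for a family of `k + 1` sets of size at most `k` without a common
element. -/
lemma card_bad_le {q k n : ℕ} (hkq : k + 1 ≤ q) (φ : Fin (k + 1) → Fin k → Option (Fin n))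
    (hφ : ∀ x, ∃ j, x ∉ listed (φ j)) :
    (Finset.univ.filter (fun g : Fin n → Fin q => ∃ a, ∀ j, ∃ x ∈ listed (φ j), g x = a)).card *
      q ^ (k * (k + 1)) ≤ (q ^ (k * (k + 1)) - 1) * q ^ n := by
  classical
  set V := k * (k + 1) with hV
  set X₁ := listed (φ 0) with hX₁
  have hX₁k : X₁.card ≤ k := card_listed_le _
  -- the separating assignment
  let σ : Fin n → Fin q := fun x =>
    if h : x ∈ X₁ then ⟨(X₁.equivFin ⟨x, h⟩ : ℕ), by
      have := (X₁.equivFin ⟨x, h⟩).isLt; omega⟩ else ⟨k, by omega⟩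
  have hσ1 : ∀ x (h : x ∈ X₁), (σ x : ℕ) = (X₁.equivFin ⟨x, h⟩ : ℕ) := by
    intro x h
    simp [σ, h]
  have hσ1' : ∀ x, x ∈ X₁ → (σ x : ℕ) < k := by
    intro x h
    rw [hσ1 x h]
    have := (X₁.equivFin ⟨x, h⟩).isLt
    omega
  have hσ2 : ∀ x, x ∉ X₁ → (σ x : ℕ) = k := by
    intro x h
    simp [σ, h]
  have hσinj : ∀ x ∈ X₁, ∀ y, σ y = σ x → y = x := by
    intro x hx y hxy
    by_cases hy : y ∈ X₁
    · have h1 : (σ y : ℕ) = σ x := by rw [hxy]
      rw [hσ1 x hx, hσ1 y hy] at h1
      have h2 := X₁.equivFin.injective (Fin.ext h1)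
      exact congrArg Subtype.val h2
    · have h1 : (σ y : ℕ) = σ x := by rw [hxy]
      rw [hσ2 y hy] at h1
      have := hσ1' x hx
      omega
  let W : Finset (Fin n) := Finset.univ.biUnion (fun j => listed (φ j))
  have hW : W.card ≤ V := by
    have h1 := Finset.card_biUnion_le_card_mul (Finset.univ : Finset (Fin (k + 1)))
      (fun j => listed (φ j)) k (fun j _ => card_listed_le _)
    simp only [Finset.card_univ, Fintype.card_fin] at h1
    rw [hV, mul_comm k]
    exact h1
  let G : Finset (Fin n → Fin q) := Finset.univ.filter (fun g => ∀ x ∈ W, g x = σ x)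
  let Bd : Finset (Fin n → Fin q) :=
    Finset.univ.filter (fun g : Fin n → Fin q => ∃ a, ∀ j, ∃ x ∈ listed (φ j), g x = a)
  have hG : G.card * q ^ W.card = q ^ n := by
    have h1 : G = Fintype.piFinset (fun x => if x ∈ W then ({σ x} : Finset (Fin q)) else Finset.univ) := by
      ext g
      simp only [G, Finset.mem_filter, Finset.mem_univ, true_and, Fintype.mem_piFinset]
      constructor
      · intro h x
        by_cases hx : x ∈ W
        · simp [hx, h x hx]
        · simp [hx]
      · intro h x hx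
        have := h x
        simpa [hx] using this
    rw [h1, Fintype.card_piFinset]
    have h2 : q ^ W.card = ∏ x : Fin n, (if x ∈ W then q else 1) := by
      rw [Finset.prod_ite]
      simp
    rw [h2, ← Finset.prod_mul_distrib]
    have h3 : ∀ x : Fin n, ((if x ∈ W then ({σ x} : Finset (Fin q)) else Finset.univ).card *
        (if x ∈ W then q else 1)) = q := by
      intro x
      by_cases hx : x ∈ W <;> simp [hx]
    rw [Finset.prod_congr rfl (fun x _ => h3 x)]
    simp
  have hdisj : Disjoint Bd G := by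
    rw [Finset.disjoint_left]
    intro g hg hg'
    simp only [Bd, G, Finset.mem_filter, Finset.mem_univ, true_and] at hg hg'
    obtain ⟨a, ha⟩ := hg
    have hmem : ∀ j, ∀ x ∈ listed (φ j), x ∈ W := by
      intro j x hx
      exact Finset.mem_biUnion.mpr ⟨j, Finset.mem_univ _, hx⟩
    obtain ⟨x, hx, hxa⟩ := ha 0
    rw [hg' x (hmem 0 x hx)] at hxa
    obtain ⟨j, hj⟩ := hφ x
    obtain ⟨y, hy, hya⟩ := ha j
    rw [hg' y (hmem j y hy)] at hya
    have : y = x := hσinj x hx y (hya.trans hxa.symm)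
    exact hj (this ▸ hy)
  have hle : Bd.card + G.card ≤ q ^ n := by
    rw [← Finset.card_union_of_disjoint hdisj]
    simpa using Finset.card_le_univ (Bd ∪ G)
  have hq : 1 ≤ q := by omega
  have h1 : q ^ n ≤ G.card * q ^ V := by
    rw [← hG]
    exact Nat.mul_le_mul_left _ (Nat.pow_le_pow_right hq hW)
  have h2 : (Bd.card + G.card) * q ^ V ≤ q ^ n * q ^ V := Nat.mul_le_mul_right _ hle
  rw [Nat.sub_mul, one_mul, mul_comm (q ^ V) (q ^ n)]
  rw [add_mul] at h2
  show Bd.card * q ^ V ≤ q ^ n * q ^ V - q ^ n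
  omega

/-- Existence of separating functions. -/
theorem exists_separating {q k n m : ℕ} (hkq : k + 1 ≤ q)
    (hcount : (n + 1) ^ (k * (k + 1)) * (q ^ (k * (k + 1)) - 1) ^ m < (q ^ (k * (k + 1))) ^ m) :
    ∃ f : Fin n → Fin m → Fin q, ∀ Y : Finset (Finset (Fin n)), Y.Nonempty → Y.card ≤ k + 1 →
      (∀ X ∈ Y, X.card ≤ k) → (∀ x, ∃ X ∈ Y, x ∉ X) →
      ∃ i : Fin m, ∀ a : Fin q, ∃ X ∈ Y, ∀ x ∈ X, f x i ≠ a := by
  classical
  set V := k * (k + 1) with hV
  have hq : 0 < q := by omega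
  -- bad functions for `φ`
  let Bd : (Fin (k + 1) → Fin k → Option (Fin n)) → Finset (Fin m → Fin n → Fin q) := fun φ =>
    if ∀ x, ∃ j, x ∉ listed (φ j) then
      Fintype.piFinset (fun _ => Finset.univ.filter
        (fun g : Fin n → Fin q => ∃ a, ∀ j, ∃ x ∈ listed (φ j), g x = a))
    else ∅
  have hBd : ∀ φ, (Bd φ).card * (q ^ V) ^ m ≤ (q ^ V - 1) ^ m * (q ^ n) ^ m := by
    intro φ
    by_cases hφ : ∀ x, ∃ j, x ∉ listed (φ j)
    · simp only [Bd, if_pos hφ, Fintype.card_piFinset, Finset.prod_const, Finset.card_univ,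
        Fintype.card_fin]
      rw [← mul_pow, ← mul_pow]
      exact Nat.pow_le_pow_left (card_bad_le hkq φ hφ) m
    · simp only [Bd, if_neg hφ, Finset.card_empty, zero_mul]
      exact Nat.zero_le _
  have hunion : ((Finset.univ : Finset (Fin (k + 1) → Fin k → Option (Fin n))).biUnion Bd).card <
      (q ^ n) ^ m := by
    have h1 : ((Finset.univ : Finset (Fin (k + 1) → Fin k → Option (Fin n))).biUnion Bd).card ≤
        ∑ φ, (Bd φ).card := Finset.card_biUnion_le
    have h2 : (∑ φ, (Bd φ).card) * (q ^ V) ^ m ≤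
        (n + 1) ^ V * ((q ^ V - 1) ^ m * (q ^ n) ^ m) := by
      rw [Finset.sum_mul]
      refine (Finset.sum_le_sum (fun φ _ => hBd φ)).trans ?_
      rw [Finset.sum_const, smul_eq_mul]
      apply le_of_eq
      congr 1
      simp only [Finset.card_univ, Fintype.card_fun, Fintype.card_fin, Fintype.card_option]
      rw [hV, ← pow_mul]
    have h3 : (n + 1) ^ V * ((q ^ V - 1) ^ m * (q ^ n) ^ m) < (q ^ V) ^ m * (q ^ n) ^ m := by
      rw [← mul_assoc]
      exact Nat.mul_lt_mul_of_pos_right hcount (pow_pos (pow_pos hq _) _)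
    have h4 : (∑ φ, (Bd φ).card) * (q ^ V) ^ m < (q ^ n) ^ m * (q ^ V) ^ m := by
      rw [mul_comm ((q ^ n) ^ m)]
      omega
    have h5 := Nat.lt_of_mul_lt_mul_right h4
    omega
  obtain ⟨F, hF⟩ : ∃ F : Fin m → Fin n → Fin q,
      F ∉ (Finset.univ : Finset (Fin (k + 1) → Fin k → Option (Fin n))).biUnion Bd := by
    by_contra hcon
    push Not at hcon
    have h1 : (Finset.univ : Finset (Fin m → Fin n → Fin q)) ⊆
        (Finset.univ : Finset (Fin (k + 1) → Fin k → Option (Fin n))).biUnion Bd :=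
      fun F _ => hcon F
    have h2 := Finset.card_le_card h1
    simp only [Finset.card_univ, Fintype.card_fun, Fintype.card_fin] at h2
    omega
  refine ⟨fun x i => F i x, ?_⟩
  intro Y hYne hYc hYk hYx
  by_contra hcon
  push Not at hcon
  -- represent `Y` by `φ`
  obtain ⟨X₀, hX₀⟩ := hYne
  let s : Fin (k + 1) → Finset (Fin n) := fun j =>
    if h : (j : ℕ) < Y.card then (Y.equivFin.symm ⟨j, h⟩).1 else X₀
  have hsY : ∀ j, s j ∈ Y := by
    intro j
    by_cases h : (j : ℕ) < Y.card
    · simp only [s, h, dif_pos]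
      exact (Y.equivFin.symm ⟨j, h⟩).2
    · simp only [s, h, dif_neg, not_false_eq_true]
      exact hX₀
  have hYs : ∀ X ∈ Y, ∃ j, s j = X := by
    intro X hX
    refine ⟨⟨(Y.equivFin ⟨X, hX⟩ : ℕ), by have := (Y.equivFin ⟨X, hX⟩).isLt; omega⟩, ?_⟩
    simp [s]
  have hch : ∀ j, ∃ u : Fin k → Option (Fin n), listed u = s j :=
    fun j => exists_listed (s j) (hYk _ (hsY j))
  choose φ hφ using hch
  apply hF
  rw [Finset.mem_biUnion]
  refine ⟨φ, Finset.mem_univ _, ?_⟩
  have hE : ∀ x, ∃ j, x ∉ listed (φ j) := by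
    intro x
    obtain ⟨X, hX, hxX⟩ := hYx x
    obtain ⟨j, hj⟩ := hYs X hX
    exact ⟨j, by rw [hφ, hj]; exact hxX⟩
  simp only [Bd, if_pos hE, Fintype.mem_piFinset, Finset.mem_filter, Finset.mem_univ, true_and]
  intro i
  obtain ⟨a, ha⟩ := hcon i
  refine ⟨a, fun j => ?_⟩
  rw [hφ]
  exact ha (s j) (hsY j)

end Pool.Agent.Lib.MP_96bab1_co
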