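import Pool.Agent.Lib.MP_96bab1_co.Upper
import Pool.Agent.Lib.MP_96bab1_co.Rate

/-!
The exact maximum size of sequential `k`-IPP codes when `q ≤ k`.
-/

namespace Pool.Agent.Lib.MP_96bab1_co

open Finset

variable {q ℓ : ℕ}

/-- If `q ≤ k` then a sequential `k`-IPP code has at most `q` words. -/
lemma card_le_q_of_le {k : ℕ} (hq : 1 ≤ q) (hqk : q ≤ k) (C : Finset (Word q ℓ))
    (hC : IsSeqIPP k C) : C.card ≤ q := by
  classical
  by_contra hcon
  obtain ⟨A, hA⟩ := hC
  obtain ⟨D, hDC, hD⟩ := Finset.exists_subset_card_eq (by omega : q + 1 ≤ C.card)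
  -- a symbol shared by two words of `D` at each coordinate
  have hpig : ∀ i : Fin ℓ, ∃ a : Fin q, ∃ x ∈ D, ∃ y ∈ D, x ≠ y ∧ x i = a ∧ y i = a := by
    intro i
    obtain ⟨x, hx, y, hy, hxy, h⟩ := Finset.exists_ne_map_eq_of_card_lt_of_maps_to
      (s := D) (t := (Finset.univ : Finset (Fin q))) (f := fun x => x i)
      (by simp [hD]) (fun x _ => Finset.mem_coe.mpr (Finset.mem_univ _))
    exact ⟨y i, x, hx, y, hy, hxy, h, rfl⟩
  choose d x hx y hy hxy hxd hyd using hpig
  have hEcard : ∀ z ∈ D, (D.erase z).card ≤ k := by
    intro z hz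
    rw [Finset.card_erase_of_mem hz]
    omega
  have hEC : ∀ z, D.erase z ⊆ C := fun z => (Finset.erase_subset _ _).trans hDC
  have hst : ∀ p, p ≤ ℓ → ∀ p' ≤ p, stU A d p' = ∅ := by
    intro p
    induction p with
    | zero =>
      intro _ p' hp'
      have : p' = 0 := by omega
      subst this
      rfl
    | succ p ih =>
      intro hp p' hp'
      rcases Nat.lt_or_ge p' (p + 1) with h | h
      · exact ih (by omega) p' (by omega)
      · have hpp : p' = p + 1 := by omega
        subst hpp
        rw [Finset.eq_empty_iff_forall_notMem]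
        intro w hw
        have hgen : ∀ z ∈ D, w ∈ D.erase z := by
          intro z hz
          have hr := reach_stU A (D.erase z) d (p + 1) hp (by
            intro i hi
            rw [ih (by omega) i (by omega)]
            by_cases h : x i = z
            · refine ⟨y i, ?_, hyd i⟩
              simp only [Finset.mem_sdiff, Finset.mem_erase, Finset.notMem_empty,
                not_false_eq_true, and_true]
              exact ⟨fun h2 => hxy i (h.trans h2.symm), hy i⟩
            · refine ⟨x i, ?_, hxd i⟩
              simp only [Finset.mem_sdiff, Finset.mem_erase, Finset.notMem_empty,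
                not_false_eq_true, and_true]
              exact ⟨h, hx i⟩)
          exact (hA _ (hEC z) (hEcard z hz) _ _ hr).1 hw
        have hwD : w ∈ D := by
          obtain ⟨z, hz⟩ : D.Nonempty := Finset.card_pos.mp (by omega)
          exact Finset.mem_of_mem_erase (hgen z hz)
        exact absurd (hgen w hwD) (Finset.notMem_erase _ _)
  obtain ⟨z, hz⟩ : D.Nonempty := Finset.card_pos.mp (by omega)
  have hr := reach_stU A (D.erase z) d ℓ le_rfl (by
    intro i hi
    rw [hst ℓ le_rfl i (by omega)]
    by_cases h : x i = z
    · refine ⟨y i, ?_, hyd i⟩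
      simp only [Finset.mem_sdiff, Finset.mem_erase, Finset.notMem_empty,
        not_false_eq_true, and_true]
      exact ⟨fun h2 => hxy i (h.trans h2.symm), hy i⟩
    · refine ⟨x i, ?_, hxd i⟩
      simp only [Finset.mem_sdiff, Finset.mem_erase, Finset.notMem_empty,
        not_false_eq_true, and_true]
      exact ⟨h, hx i⟩)
  have h1 := (hA _ (hEC z) (hEcard z hz) _ _ hr).2 (pre_length d le_rfl)
  rw [hst ℓ le_rfl ℓ le_rfl] at h1
  have h2 := Finset.card_erase_of_mem hz
  rw [← h1] at h2
  simp only [Finset.card_empty] at h2
  omega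

/-- At most one word can be identified per round. -/
lemma card_le_length {k : ℕ} (C : Finset (Word q ℓ)) (hC : IsSeqIPP k C) (hCk : C.card ≤ k) :
    C.card ≤ ℓ := by
  classical
  by_contra hcon
  obtain ⟨A, hA⟩ := hC
  -- after `p` rounds at most `p` words are identified: by induction we build the history
  have key : ∀ p, p ≤ ℓ → ∃ (h : Word q ℓ) (P : Finset (Word q ℓ)) (g : Word q ℓ),
      P ⊆ C ∧ P.card ≤ p ∧ g ∈ C ∧ g ∉ P ∧ stU A h p ⊆ P ∧
      (∀ i : Fin ℓ, (i : ℕ) < p → ∃ x ∈ (insert g P) \ stU A h i, x i = h i) := by
    intro p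
    induction p with
    | zero =>
      intro _
      obtain ⟨g, hg⟩ : C.Nonempty := Finset.card_pos.mp (by omega)
      exact ⟨g, ∅, g, by simp, by simp, hg, by simp, by simp [stU], fun i hi => absurd hi (by omega)⟩
    | succ p ih =>
      intro hp
      obtain ⟨h, P, g, hPC, hPp, hgC, hgP, hst, hcons⟩ := ih (by omega)
      -- play the symbol of `g`
      let h' : Word q ℓ := fun i => if (i : ℕ) < p then h i else g i
      have hh' : ∀ i : Fin ℓ, (i : ℕ) < p → h i = h' i := by
        intro i hi; simp [h', hi]
      have hcongr := stU_congr A hh'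
      have hcons' : ∀ i : Fin ℓ, (i : ℕ) < p + 1 →
          ∃ x ∈ (insert g P) \ stU A h' i, x i = h' i := by
        intro i hi
        rcases Nat.lt_or_ge (i : ℕ) p with h1 | h1
        · rw [← hcongr i (by omega) (by omega), ← hh' i h1]
          exact hcons i h1
        · have h2 : (i : ℕ) = p := by omega
          refine ⟨g, ?_, ?_⟩
          · rw [Finset.mem_sdiff]
            refine ⟨Finset.mem_insert_self _ _, ?_⟩
            rw [h2, ← hcongr p le_rfl (by omega)]
            exact fun h3 => hgP (hst h3)
          · simp [h', h2]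
      have hIC : insert g P ⊆ C := Finset.insert_subset hgC hPC
      have hr := reach_stU A (insert g P) h' (p + 1) hp hcons'
      have hsub := (hA _ hIC ((Finset.card_le_card hIC).trans hCk) _ _ hr).1
      by_cases hg : g ∈ stU A h' (p + 1)
      · -- `g` may be identified: move on to a new word
        have hcard : (insert g P).card ≤ p + 1 := by
          have := Finset.card_insert_le g P
          omega
        obtain ⟨g', hg'C, hg'P⟩ : ∃ g' ∈ C, g' ∉ insert g P := by
          by_contra hc
          push Not at hc
          have := Finset.card_le_card (show C ⊆ insert g P from hc)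
          omega
        refine ⟨h', insert g P, g', hIC, hcard, hg'C, hg'P, hsub, ?_⟩
        intro i hi
        obtain ⟨x, hx, hxi⟩ := hcons' i hi
        refine ⟨x, ?_, hxi⟩
        rw [Finset.mem_sdiff] at hx ⊢
        exact ⟨Finset.mem_insert_of_mem hx.1, hx.2⟩
      · refine ⟨h', P, g, hPC, by omega, hgC, hgP, ?_, hcons'⟩
        intro w hw
        have h1 := hsub hw
        rw [Finset.mem_insert] at h1
        rcases h1 with rfl | h1
        · exact absurd hw hg
        · exact h1
  obtain ⟨h, P, g, hPC, hPp, hgC, hgP, hst, hcons⟩ := key ℓ le_rfl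
  have hIC : insert g P ⊆ C := Finset.insert_subset hgC hPC
  have hr := reach_stU A (insert g P) h ℓ le_rfl hcons
  have h1 := (hA _ hIC ((Finset.card_le_card hIC).trans hCk) _ _ hr).2 (pre_length h le_rfl)
  rw [h1] at hst
  exact hgP (hst (Finset.mem_insert_self _ _))

/-- A code of constant words. -/
lemma exists_constant_code (k n : ℕ) (hnq : n ≤ q) (hnℓ : n ≤ ℓ) :
    ∃ C : Finset (Word q ℓ), C.card = n ∧ IsSeqIPP k C := by
  classical
  rcases Nat.eq_zero_or_pos n with h0 | hn
  · subst h0
    exact ⟨∅, rfl, isSeqIPP_empty q ℓ k⟩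
  have hℓ : 0 < ℓ := by omega
  let c : Fin q → Word q ℓ := fun a _ => a
  have hc : Function.Injective c := by
    intro a b h
    exact congrFun h ⟨0, hℓ⟩
  let S : Finset (Fin q) := Finset.univ.filter (fun a => (a : ℕ) < n)
  have hS : S.card = n := by
    have h1 : S.card = (Finset.range n).card := by
      apply Finset.card_bij (fun (a : Fin q) _ => (a : ℕ))
      · intro a ha
        simp only [S, Finset.mem_filter, Finset.mem_univ, true_and] at ha
        exact Finset.mem_range.mpr ha
      · intro a _ b _ h
        exact Fin.ext h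
      · intro b hb
        rw [Finset.mem_range] at hb
        exact ⟨⟨b, by omega⟩, by simp [S, hb], rfl⟩
    simpa using h1
  refine ⟨S.image c, by rw [Finset.card_image_of_injective _ hc, hS], ?_⟩
  -- the tracer adds the words of the symbols received
  refine ⟨fun w _ => (w.toFinset).image c, ?_⟩
  intro X hXC _ w U hr
  have hXle : X.card ≤ n := by
    have := Finset.card_le_card hXC
    rwa [Finset.card_image_of_injective _ hc, hS] at this
  have key : U ⊆ X ∧ U = (w.toFinset).image c ∧ U.card = w.length := by
    induction hr with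
    | start => simp
    | round w U i x hr hi hx ih =>
      obtain ⟨h1, h2, h3⟩ := ih
      rw [Finset.mem_sdiff] at hx
      have hxc : c (x i) = x := by
        have h4 := hXC hx.1
        rw [Finset.mem_image] at h4
        obtain ⟨a, _, rfl⟩ := h4
        rfl
      have h5 : ((w ++ [x i]).toFinset).image c = insert x U := by
        rw [List.toFinset_append, Finset.image_union, ← h2]
        simp only [List.toFinset_cons, List.toFinset_nil, insert_empty_eq,
          Finset.image_singleton, hxc]
        rw [Finset.union_comm]
        rfl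
      have h6 : U ∪ ((w ++ [x i]).toFinset).image c = insert x U := by
        rw [h5]
        ext z
        simp only [Finset.mem_union, Finset.mem_insert]
        tauto
      refine ⟨?_, ?_, ?_⟩
      · rw [h6]
        exact Finset.insert_subset hx.1 h1
      · rw [h6, h5]
      · rw [h6, Finset.card_insert_of_notMem hx.2, h3]
        simp
  refine ⟨key.1, ?_⟩
  intro hw
  apply Finset.eq_of_subset_of_card_le key.1
  omega

/-- The exact value of `N(q, ℓ, k)` when `q ≤ k`. -/
theorem maxSize_eq_min {k : ℕ} (hq : 1 ≤ q) (hqk : q ≤ k) : maxSize q ℓ k = min q ℓ := by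
  apply le_antisymm
  · apply maxSize_le
    intro C hC
    have h1 := card_le_q_of_le hq hqk C hC
    exact le_min h1 (card_le_length C hC (by omega))
  · obtain ⟨C, hC, hCI⟩ := exists_constant_code (q := q) (ℓ := ℓ) k (min q ℓ)
      (min_le_left _ _) (min_le_right _ _)
    rw [← hC]
    exact le_maxSize C hCI

end Pool.Agent.Lib.MP_96bab1_co
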