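import Pool.Agent.Lib.MP_96bab1_co.Defs

/-!
Upper bound for sequential `k`-IPP codes.
-/

namespace Pool.Agent.Lib.MP_96bab1_co

open Finset

variable {q ℓ : ℕ}

/-- The list of the first `p` symbols of the word `h`. -/
def pre (h : Word q ℓ) (p : ℕ) : List (Fin q) := (List.ofFn h).take p

/-- The identified set after `p` rounds when the received symbols are those of `h`. -/
def stU (A : Tracer q ℓ) (h : Word q ℓ) : ℕ → Finset (Word q ℓ)
  | 0 => ∅
  | (p + 1) => stU A h p ∪ A (pre h (p + 1)) (stU A h p)

lemma pre_length (h : Word q ℓ) {p : ℕ} (hp : p ≤ ℓ) : (pre h p).length = p := by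
  simp [pre, hp]

lemma pre_succ (h : Word q ℓ) (i : Fin ℓ) : pre h ((i : ℕ) + 1) = pre h i ++ [h i] := by
  unfold pre
  rw [List.take_add_one]
  simp

lemma pre_congr {h h' : Word q ℓ} {p : ℕ} (H : ∀ i : Fin ℓ, (i : ℕ) < p → h i = h' i) :
    ∀ p', p' ≤ p → p' ≤ ℓ → pre h p' = pre h' p' := by
  intro p'
  induction p' with
  | zero => intro _ _; simp [pre]
  | succ n ih =>
    intro h1 h2
    have e1 := pre_succ h ⟨n, h2⟩
    have e2 := pre_succ h' ⟨n, h2⟩
    simp only at e1 e2
    rw [e1, e2, ih (by omega) (by omega), H ⟨n, h2⟩ (by simpa using h1)]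

lemma stU_congr (A : Tracer q ℓ) {h h' : Word q ℓ} {p : ℕ}
    (H : ∀ i : Fin ℓ, (i : ℕ) < p → h i = h' i) :
    ∀ p', p' ≤ p → p' ≤ ℓ → stU A h p' = stU A h' p' := by
  intro p'
  induction p' with
  | zero => intro _ _; simp [stU]
  | succ n ih =>
    intro h1 h2
    simp only [stU]
    rw [ih (by omega) (by omega), pre_congr H (n + 1) h1 h2]

lemma reach_stU (A : Tracer q ℓ) (X : Finset (Word q ℓ)) (h : Word q ℓ) :
    ∀ p, p ≤ ℓ → (∀ i : Fin ℓ, (i : ℕ) < p → ∃ x ∈ X \ stU A h i, x i = h i) →
      Reach A X (pre h p) (stU A h p) := by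
  intro p
  induction p with
  | zero =>
    intro _ _
    simpa [pre, stU] using (Reach.start (𝒜 := A) (X := X))
  | succ n ih =>
    intro h1 h2
    have h3 := ih (by omega) (fun i hi => h2 i (by omega))
    obtain ⟨x, hx, hxi⟩ := h2 ⟨n, h1⟩ (by simp)
    have h4 := Reach.round (𝒜 := A) (X := X) (pre h n) (stU A h n) ⟨n, h1⟩ x h3
      (by simpa using pre_length h (by omega : n ≤ ℓ)) hx
    have e1 := pre_succ h ⟨n, h1⟩
    simp only at e1
    rw [hxi, ← e1] at h4
    exact h4

lemma pigeon (D : Finset (Word q ℓ)) (r t : ℕ) (hq : 1 ≤ q) (B : Fin r → Finset (Fin ℓ))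
    (hB : ∀ b, (B b).card ≤ t) (hD : r * q ^ t < D.card) :
    ∃ g ∈ D, ∀ b, ∃ y ∈ D, y ≠ g ∧ ∀ i ∈ B b, y i = g i := by
  classical
  by_contra hcon
  push Not at hcon
  have hsub : D ⊆ (Finset.univ : Finset (Fin r)).biUnion
      (fun b => D.filter (fun g => ∀ y ∈ D, y ≠ g → ∃ i ∈ B b, y i ≠ g i)) := by
    intro g hg
    obtain ⟨b, hb⟩ := hcon g hg
    simp only [Finset.mem_biUnion, Finset.mem_univ, true_and, Finset.mem_filter]
    exact ⟨b, hg, hb⟩
  have hcard : ∀ b ∈ (Finset.univ : Finset (Fin r)),
      (D.filter (fun g => ∀ y ∈ D, y ≠ g → ∃ i ∈ B b, y i ≠ g i)).card ≤ q ^ t := by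
    intro b _
    have h1 : (D.filter (fun g => ∀ y ∈ D, y ≠ g → ∃ i ∈ B b, y i ≠ g i)).card ≤
        (Finset.univ : Finset (B b → Fin q)).card := by
      apply Finset.card_le_card_of_injOn (fun g => fun i : B b => g i.1)
      · intro g _; simp
      · intro g hg g' hg' hgg'
        by_contra hne
        simp only [Finset.coe_filter, Set.mem_ofPred_eq] at hg hg'
        obtain ⟨i, hi, hi'⟩ := hg.2 g' hg'.1 (fun h => hne h.symm)
        exact hi' (congrFun hgg' ⟨i, hi⟩).symm
    calc _ ≤ (Finset.univ : Finset (B b → Fin q)).card := h1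
      _ = q ^ (B b).card := by simp
      _ ≤ q ^ t := Nat.pow_le_pow_right hq (hB b)
  have h2 := Finset.card_le_card hsub
  have h3 := Finset.card_biUnion_le_card_mul _ _ _ hcard
  simp only [Finset.card_univ, Fintype.card_fin] at h3
  omega

lemma adversary (A : Tracer q ℓ) (C : Finset (Word q ℓ)) (k t : ℕ) (hq : 1 ≤ q)
    (hA : ∀ X ⊆ C, X.card ≤ k → ∀ w U, Reach A X w U → U ⊆ X ∧ (w.length = ℓ → U = X)) :
    ∀ (r : ℕ) (P Q : Finset (Word q ℓ)) (h : Word q ℓ) (p : ℕ),
      P ⊆ C → P ⊆ Q → P.card + r ≤ k → p ≤ ℓ →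
      2 * (ℓ + 1) ≤ 2 * p + 2 * r + t * (r * (r + 1)) →
      Q.card + r * (k + 1) + k * q ^ t < C.card →
      (∀ i : Fin ℓ, (i : ℕ) < p → ∃ x ∈ P \ stU A h i, x i = h i) →
      stU A h p ⊆ P → False := by
  classical
  intro r
  induction r with
  | zero =>
    intro P Q h p _ _ _ hp h2 _ _ _
    omega
  | succ r ih =>
    intro P Q h p hPC hPQ hPk hp hlen hcard hcons hst
    -- choose the star
    let B : Fin (r + 1) → Finset (Fin ℓ) := fun b =>
      Finset.univ.filter (fun i : Fin ℓ => p + b * t ≤ i ∧ (i : ℕ) < p + (b + 1) * t)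
    have hBcard : ∀ b, (B b).card ≤ t := by
      intro b
      have : (B b).card ≤ (Finset.Ico (p + b * t) (p + (b + 1) * t)).card := by
        apply Finset.card_le_card_of_injOn (fun i : Fin ℓ => (i : ℕ))
        · intro i hi
          simp only [B, Finset.coe_filter, Finset.mem_univ, true_and, Set.mem_ofPred_eq] at hi
          simp only [Finset.coe_Ico, Set.mem_Ico]
          exact hi
        · intro i _ j _ hij
          exact Fin.ext hij
      rw [Nat.card_Ico] at this
      have h3 : p + ((b : ℕ) + 1) * t - (p + b * t) = t := by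
        have : p + ((b : ℕ) + 1) * t = t + (p + b * t) := by ring
        omega
      omega
    have hDcard : (r + 1) * q ^ t < (C \ Q).card := by
      have h1 : C.card ≤ (C \ Q).card + Q.card := by
        exact Finset.card_le_card_sdiff_add_card
      have h2 : (r + 1) * q ^ t ≤ k * q ^ t := Nat.mul_le_mul_right _ (by omega)
      have h3 : 0 ≤ (r + 1) * (k + 1) := Nat.zero_le _
      omega
    obtain ⟨g, hgD, hg⟩ := pigeon (C \ Q) (r + 1) t hq B hBcard hDcard
    choose y hyD hyne hyB using hg
    have hgC : g ∈ C := (Finset.mem_sdiff.mp hgD).1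
    have hgQ : g ∉ Q := (Finset.mem_sdiff.mp hgD).2
    have hgP : g ∉ P := fun h => hgQ (hPQ h)
    have hyC : ∀ b, y b ∈ C := fun b => (Finset.mem_sdiff.mp (hyD b)).1
    have hyP : ∀ b, y b ∉ P := fun b h => (Finset.mem_sdiff.mp (hyD b)).2 (hPQ h)
    let Y : Finset (Word q ℓ) := P ∪ Finset.univ.image y
    let X₁ : Finset (Word q ℓ) := insert g P
    let h' : Word q ℓ := fun i => if (i : ℕ) < p then h i else g i
    have hh' : ∀ i : Fin ℓ, (i : ℕ) < p → h i = h' i := by
      intro i hi; simp [h', hi]
    have hcongr := stU_congr A hh'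
    have hYC : Y ⊆ C := by
      intro x hx
      simp only [Y, Finset.mem_union, Finset.mem_image, Finset.mem_univ, true_and] at hx
      rcases hx with hx | ⟨b, rfl⟩
      · exact hPC hx
      · exact hyC b
    have hXC : X₁ ⊆ C := by
      intro x hx
      simp only [X₁, Finset.mem_insert] at hx
      rcases hx with rfl | hx
      · exact hgC
      · exact hPC hx
    have hYk : Y.card ≤ k := by
      have h1 : Y.card ≤ P.card + (Finset.univ.image y).card := Finset.card_union_le _ _
      have h2 : (Finset.univ.image y).card ≤ r + 1 := by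
        simpa using (Finset.card_image_le (s := Finset.univ) (f := y))
      omega
    have hXk : X₁.card ≤ k := by
      have h1 : X₁.card ≤ P.card + 1 := Finset.card_insert_le _ _
      omega
    have hconsP : ∀ i : Fin ℓ, (i : ℕ) < p → ∃ x ∈ P \ stU A h' i, x i = h' i := by
      intro i hi
      rw [← hcongr i (by omega) (by omega), ← hh' i hi]
      exact hcons i hi
    -- the sub-claim
    have hsub : ∀ s, p ≤ s → s ≤ ℓ → s ≤ p + (r + 1) * t →
        (∀ i, p ≤ i → i ≤ s → stU A h' i ⊆ P) := by
      intro s
      induction s with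
      | zero =>
        intro hps _ _ i hpi hi
        have h0 : i = 0 := by omega
        subst h0
        simp [stU]
      | succ s ihs =>
        intro hps hsl hsr i hpi hi
        rcases Nat.lt_or_ge s p with hlt | hge
        · have hi' : i = p := by omega
          rw [hi', ← hcongr p le_rfl hp]
          exact hst
        · have ih' := ihs hge (by omega) (by omega)
          rcases Nat.lt_or_ge i (s + 1) with hlt | hge2
          · exact ih' i hpi (by omega)
          · have hi' : i = s + 1 := by omega
            subst hi'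
            -- consistency of X₁ and Y
            have hXcons : ∀ i : Fin ℓ, (i : ℕ) < s + 1 → ∃ x ∈ X₁ \ stU A h' i, x i = h' i := by
              intro i hi
              rcases Nat.lt_or_ge (i : ℕ) p with h1 | h1
              · obtain ⟨x, hx, hxi⟩ := hconsP i h1
                refine ⟨x, ?_, hxi⟩
                rw [Finset.mem_sdiff] at hx ⊢
                exact ⟨Finset.mem_insert_of_mem hx.1, hx.2⟩
              · refine ⟨g, ?_, ?_⟩
                · rw [Finset.mem_sdiff]
                  refine ⟨Finset.mem_insert_self _ _, fun hgi => hgP (ih' i h1 (by omega) hgi)⟩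
                · simp [h', Nat.not_lt.mpr h1]
            have hYcons : ∀ i : Fin ℓ, (i : ℕ) < s + 1 → ∃ x ∈ Y \ stU A h' i, x i = h' i := by
              intro i hi
              rcases Nat.lt_or_ge (i : ℕ) p with h1 | h1
              · obtain ⟨x, hx, hxi⟩ := hconsP i h1
                refine ⟨x, ?_, hxi⟩
                rw [Finset.mem_sdiff] at hx ⊢
                exact ⟨Finset.mem_union_left _ hx.1, hx.2⟩
              · have htpos : 0 < t := by
                  rcases Nat.eq_zero_or_pos t with h0 | h0
                  · subst h0; omega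
                  · exact h0
                have hb : ((i : ℕ) - p) / t < r + 1 := by
                  rw [Nat.div_lt_iff_lt_mul htpos]
                  omega
                refine ⟨y ⟨((i : ℕ) - p) / t, hb⟩, ?_, ?_⟩
                · rw [Finset.mem_sdiff]
                  refine ⟨Finset.mem_union_right _ (Finset.mem_image_of_mem _ (Finset.mem_univ _)),
                    fun hgi => hyP _ (ih' i h1 (by omega) hgi)⟩
                · have h2 : h' i = g i := by simp [h', Nat.not_lt.mpr h1]
                  rw [h2]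
                  apply hyB
                  simp only [B, Finset.mem_filter, Finset.mem_univ, true_and]
                  have h3 := Nat.div_add_mod' ((i : ℕ) - p) t
                  have h4 := Nat.mod_lt ((i : ℕ) - p) htpos
                  have h5 : (((i : ℕ) - p) / t + 1) * t = ((i : ℕ) - p) / t * t + t := by ring
                  rw [h5]
                  constructor
                  · omega
                  · omega
            have hX := (hA X₁ hXC hXk _ _ (reach_stU A X₁ h' (s + 1) hsl hXcons)).1
            have hY := (hA Y hYC hYk _ _ (reach_stU A Y h' (s + 1) hsl hYcons)).1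
            intro x hx
            have hx1 := hX hx
            have hx2 := hY hx
            simp only [X₁, Finset.mem_insert] at hx1
            simp only [Y, Finset.mem_union, Finset.mem_image, Finset.mem_univ, true_and] at hx2
            rcases hx1 with rfl | hx1
            · rcases hx2 with hx2 | ⟨b, hb⟩
              · exact hx2
              · exact absurd hb (hyne b)
            · exact hx1
    -- consistency of `X₁` as long as `stU ⊆ P`
    have hXcons : ∀ s, s ≤ ℓ → s ≤ p + (r + 1) * t + 1 →
        ∀ i : Fin ℓ, (i : ℕ) < s → ∃ x ∈ X₁ \ stU A h' i, x i = h' i := by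
      intro s hsl hs i hi
      rcases Nat.lt_or_ge (i : ℕ) p with h1 | h1
      · obtain ⟨x, hx, hxi⟩ := hconsP i h1
        refine ⟨x, ?_, hxi⟩
        rw [Finset.mem_sdiff] at hx ⊢
        exact ⟨Finset.mem_insert_of_mem hx.1, hx.2⟩
      · refine ⟨g, ?_, ?_⟩
        · rw [Finset.mem_sdiff]
          refine ⟨Finset.mem_insert_self _ _, fun hgi => hgP ?_⟩
          exact hsub i h1 (by omega) (by omega) i h1 le_rfl hgi
        · simp [h', Nat.not_lt.mpr h1]
    rcases Nat.lt_or_ge (p + (r + 1) * t) ℓ with hlt | hge
    · -- continue with the next phase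
      set p₁ := p + (r + 1) * t with hp₁
      have hX := (hA X₁ hXC hXk _ _ (reach_stU A X₁ h' (p₁ + 1) hlt
        (hXcons (p₁ + 1) hlt le_rfl))).1
      refine ih X₁ (Q ∪ X₁ ∪ Finset.univ.image y) h' (p₁ + 1) hXC ?_ ?_ hlt ?_ ?_ ?_ hX
      · intro x hx
        simp only [Finset.mem_union]
        exact Or.inl (Or.inr hx)
      · have h1 : X₁.card ≤ P.card + 1 := Finset.card_insert_le _ _
        omega
      · rw [hp₁]
        have e1 : t * ((r + 1) * (r + 1 + 1)) = t * (r * (r + 1)) + 2 * ((r + 1) * t) := by ring
        rw [e1] at hlen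
        omega
      · have h1 : (Q ∪ X₁ ∪ Finset.univ.image y).card ≤ Q.card + 1 + (r + 1) := by
          have h2 : Q ∪ X₁ = insert g Q := by
            ext x
            simp only [X₁, Finset.mem_union, Finset.mem_insert]
            constructor
            · rintro (h | h | h)
              · exact Or.inr h
              · exact Or.inl h
              · exact Or.inr (hPQ h)
            · rintro (h | h)
              · exact Or.inr (Or.inl h)
              · exact Or.inl h
          have h3 : (insert g Q).card ≤ Q.card + 1 := Finset.card_insert_le _ _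
          have h4 : (Finset.univ.image y).card ≤ r + 1 := by
            simpa using (Finset.card_image_le (s := Finset.univ) (f := y))
          have h5 := Finset.card_union_le (Q ∪ X₁) (Finset.univ.image y)
          rw [h2] at h5 ⊢
          omega
        have h6 : (r + 1) * (k + 1) = r * (k + 1) + (k + 1) := by ring
        rw [h6] at hcard
        omega
      · exact hXcons (p₁ + 1) hlt le_rfl
    · -- the last phase: contradiction with `U = X₁`
      have h1 := (hA X₁ hXC hXk _ _ (reach_stU A X₁ h' ℓ le_rfl
        (hXcons ℓ le_rfl (by omega)))).2 (pre_length h' le_rfl)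
      have h2 := hsub ℓ hp le_rfl hge ℓ hp le_rfl
      rw [h1] at h2
      exact hgP (h2 (Finset.mem_insert_self _ _))

/-- The upper bound: if `ℓ ≤ k - 1 + t k (k + 1) / 2` then a sequential `k`-IPP code of length
`ℓ` has at most `k q ^ t + k (k + 1)` codewords. -/
theorem card_le_of_isSeqIPP {k t : ℕ} (hq : 1 ≤ q) (hk : 1 ≤ k)
    (hℓ : 2 * (ℓ + 1) ≤ 2 * k + t * (k * (k + 1))) (C : Finset (Word q ℓ))
    (hC : IsSeqIPP k C) : C.card ≤ k * q ^ t + k * (k + 1) := by
  by_contra hcon
  obtain ⟨A, hA⟩ := hC
  refine adversary A C k t hq hA k ∅ ∅ (fun _ => ⟨0, hq⟩) 0 (by simp) (by simp) (by simp)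
    (Nat.zero_le _) (by simpa using hℓ) ?_ ?_ (by simp [stU])
  · simp only [Finset.card_empty]
    omega
  · intro i hi
    omega

end Pool.Agent.Lib.MP_96bab1_co
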